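import Mathlib

/-!
# Urysohn widths

Definitions for problem `MP_727c87_gt`.
-/

namespace UW727

open scoped ENNReal

universe u

/-- The geometric realization `|K|` of a simplicial complex `K` with vertices in `V`: systems of
barycentric coordinates `y : V → ℝ`, nonnegative, carried by a face of `K`, of total sum `1`. -/
def Realization {V : Type*} (K : PreAbstractSimplicialComplex V) : Type _ :=
  {y : V → ℝ // (∀ v, 0 ≤ y v) ∧ ∃ s ∈ K.faces, (∀ v, v ∉ s → y v = 0) ∧ ∑ v ∈ s, y v = 1}

/-- `|K|` carries the topology of pointwise convergence of the barycentric coordinates (this is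
the usual metric topology of `|K|`; it is the usual topology when `K` is finite, and in general it
is coarser than the weak topology). -/
instance {V : Type*} (K : PreAbstractSimplicialComplex V) : TopologicalSpace (Realization K) :=
  inferInstanceAs (TopologicalSpace {y : V → ℝ //
    (∀ v, 0 ≤ y v) ∧ ∃ s ∈ K.faces, (∀ v, v ∉ s → y v = 0) ∧ ∑ v ∈ s, y v = 1})

/-- `K` has dimension at most `k`: every face has at most `k + 1` vertices. -/
def DimLE {V : Type*} (K : PreAbstractSimplicialComplex V) (k : ℕ) : Prop :=
  ∀ s ∈ K.faces, s.card ≤ k + 1

/-- The Urysohn `k`-width `UW_k(X)`: the infimum, over all continuous maps `f` from `X` to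
(possibly infinite) simplicial complexes of dimension at most `k`, of the supremum of the
diameters of the fibres of `f`. -/
noncomputable def urysohnWidth (k : ℕ) (X : Type u) [MetricSpace X] : ℝ≥0∞ :=
  ⨅ (V : Type u) (K : PreAbstractSimplicialComplex V) (_ : DimLE K k)
    (f : X → Realization K) (_ : Continuous f), ⨆ y : Realization K, Metric.ediam (f ⁻¹' {y})

/-- The Urysohn `k`-width computed with maps to *finite* simplicial complexes only; it is at least
`urysohnWidth k X`. -/
noncomputable def urysohnWidthFin (k : ℕ) (X : Type u) [MetricSpace X] : ℝ≥0∞ :=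
  ⨅ (V : Type u) (_ : Finite V) (K : PreAbstractSimplicialComplex V) (_ : DimLE K k)
    (f : X → Realization K) (_ : Continuous f), ⨆ y : Realization K, Metric.ediam (f ⁻¹' {y})

/-- `X` is a geodesic space: any two points are joined by a path parametrized proportionally to
arc length, of length their distance. -/
def IsGeodesic (X : Type*) [MetricSpace X] : Prop :=
  ∀ x y : X, ∃ c : Path x y, ∀ s t : unitInterval, dist (c s) (c t) = |(s : ℝ) - t| * dist x y

end UW727
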