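import Pool.Agent.Work.MP_727c87_gt_helper49.Pack
import Pool.Agent.Work.MP_727c87_gt_helper49.Defs

/-!
Main theorem: `UW_1(X/Γ) ≤ 1328 (b_1(Γ) + 1) UW_1(X)`.
-/

namespace UW727

open Set Filter Topology Relation
open scoped ENNReal

universe u v w

/-- discrete intermediate value theorem along chains -/
theorem chain_ivt {M : Type*} [PseudoMetricSpace M] {C : ℝ} (hC : 0 < C) {O : Set M} {z z' : M}
    (h : Ch C O z z') {t : ℝ} (ht0 : 0 ≤ t) (ht : t ≤ dist z z') :
    ∃ w, Ch C O z w ∧ t ≤ dist z w ∧ dist z w < t + C := by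
  induction h with
  | refl => exact ⟨z, ReflTransGen.refl, ht, by rw [dist_self]; linarith⟩
  | @tail c d hc hs ih =>
    rcases le_or_gt t (dist z c) with h | h
    · exact ih h
    · refine ⟨d, ReflTransGen.tail hc hs, ht, ?_⟩
      linarith [dist_triangle z c d, hs.2.2]

/-- dual families of homomorphisms bound the rank from below -/
theorem rank_of_dual {G : Type*} [Group G] {n : ℕ} (φ : Fin n → G → ℤ) (γ : Fin n → G)
    (hφ : ∀ i g h, φ i (g * h) = φ i g + φ i h) (hd : ∀ i j, φ i (γ j) = if i = j then -1 else 0) :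
    (n : Cardinal) ≤ Module.rank ℚ (Additive G →+ ℚ) := by
  classical
  let F : Fin n → (Additive G →+ ℚ) := fun i =>
    { toFun := fun g => (φ i g.toMul : ℚ)
      map_zero' := by
        have := hφ i 1 1
        rw [mul_one] at this
        have h2 : φ i 1 = 0 := by omega
        simp [h2]
      map_add' := by
        intro x y
        have := hφ i x.toMul y.toMul
        simp [this] }
  have hli : LinearIndependent ℚ F := by
    rw [Fintype.linearIndependent_iff]
    intro c hc j
    have h1 := DFunLike.congr_fun hc (Additive.ofMul (γ j))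
    simp only [AddMonoidHom.finsetSum_apply, AddMonoidHom.smul_apply, AddMonoidHom.zero_apply] at h1
    have h2 : ∀ i, (F i) (Additive.ofMul (γ j)) = if i = j then (-1 : ℚ) else 0 := by
      intro i
      show ((φ i (γ j) : ℤ) : ℚ) = _
      rw [hd]; split_ifs <;> simp
    simp only [h2, smul_eq_mul, mul_ite, mul_neg, mul_one, mul_zero, Finset.sum_ite_eq',
      Finset.mem_univ, if_true] at h1
    linarith
  have := hli.cardinal_lift_le_rank
  simpa using this

section
variable {G : Type w} {X : Type u} {M : Type v} [Group G] [MetricSpace X] [MulAction G X]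
  [IsIsometricSMul G X] [MetricSpace M] {π : X → M}
  (hdist : ∀ x y, dist (π x) (π y) = ⨅ γ : G, dist x (γ • y))

/-- annulus -/
def Ann (C : ℝ) (y0 : M) (k : ℕ) : Set M :=
  {z | ((k : ℝ) - 1) * C < dist z y0 ∧ dist z y0 < ((k : ℝ) - 1) * C + 2 * C}

include hdist in
theorem ann_bound [ProperSpace X] (hGeo : Geo X) {C : ℝ} (hC : 0 < C) (hpot : HasPot C X)
    (hsurj : Function.Surjective π) (y0 : M) {b : ℕ}
    (hb : Module.rank ℚ (Additive G →+ ℚ) ≤ b) (k : ℕ) {z z' : M}
    (hz : z ∈ Ann C y0 k) (h : Ch C (Ann C y0 k) z z') :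
    dist z z' ≤ ((b : ℝ) + 1) * (1328 * C) := by
  have hb0 : (0 : ℝ) ≤ b := Nat.cast_nonneg b
  have hz' : z' ∈ Ann C y0 k := Ch.mem hz h
  set s : ℝ := ((k : ℝ) - 1) * C with hs
  rcases le_or_gt s (220 * C) with hcase | hcase
  · have h1 := dist_triangle_right z z' y0
    have h2 := hz.2
    have h3 := hz'.2
    rw [← hs] at h2 h3
    nlinarith
  · by_contra hcon
    push Not at hcon
    have hpt : ∀ j : Fin (b + 1 + 1), ∃ w, Ch C (Ann C y0 k) z w ∧
        (j : ℝ) * (1328 * C) ≤ dist z w ∧ dist z w < (j : ℝ) * (1328 * C) + C := by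
      intro j
      refine chain_ivt hC h (by positivity) ?_
      have hj : ((j : ℕ) : ℝ) ≤ (b : ℝ) + 1 := by
        have := Nat.lt_succ_iff.1 j.2
        exact_mod_cast this
      nlinarith
    choose y hy1 hy2 hy3 using hpt
    have hsep : ∀ i j : Fin (b + 1 + 1), i < j → 1327 * C ≤ dist (y i) (y j) := by
      intro i j hij
      have h1 := dist_triangle z (y i) (y j)
      have h2 := hy3 i
      have h3 := hy2 j
      have h4 : ((i : ℕ) : ℝ) + 1 ≤ ((j : ℕ) : ℝ) := by
        have : (i : ℕ) + 1 ≤ (j : ℕ) := hij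
        exact_mod_cast this
      nlinarith
    obtain ⟨φ, γ, hφ, hd⟩ := pack hdist hGeo hC hpot hsurj y0 hcase y
      (fun j => (hy1 0).symm.trans (hy1 j)) (Ch.mem (S := Ann C y0 k) hz (hy1 0)) (by
        intro i j hij
        rcases lt_or_gt_of_ne hij with h | h
        · exact hsep i j h
        · rw [dist_comm]; exact hsep j i h)
    have h1 := (rank_of_dual φ γ hφ hd).trans hb
    have h2 : b + 1 ≤ b := by exact_mod_cast h1
    omega

/-! ### The map to the graph -/

/-- chain class inside the annulus -/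
def cls (C : ℝ) (y0 : M) (k : ℕ) (y : M) : Set M := {y' | Ch C (Ann C y0 k) y y'}

/-- tent functions -/
noncomputable def tent (C : ℝ) (y0 : M) (k : ℕ) (y : M) : ℝ := max 0 (1 - |dist y y0 / C - k|)

theorem tent_pos_iff {C : ℝ} (hC : 0 < C) {y0 : M} {k : ℕ} {y : M} :
    0 < tent C y0 k y ↔ y ∈ Ann C y0 k := by
  unfold tent Ann
  have e : dist y y0 / C * C = dist y y0 := div_mul_cancel₀ _ hC.ne'
  simp only [lt_max_iff, lt_irrefl, false_or, sub_pos, mem_ofPred_eq, abs_lt]
  constructor
  · rintro ⟨h1, h2⟩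
    constructor <;> nlinarith
  · rintro ⟨h1, h2⟩
    constructor
    · have : ((k : ℝ) - 1) * C < dist y y0 / C * C := by rw [e]; exact h1
      have := lt_of_mul_lt_mul_right this hC.le
      linarith
    · have : dist y y0 / C * C < ((k : ℝ) + 1) * C := by rw [e]; linarith
      have := lt_of_mul_lt_mul_right this hC.le
      linarith

/-- vertex set -/
def Vert (C : ℝ) (y0 : M) : Type v :=
  {v : ℕ × Set M // ∃ y ∈ Ann C y0 v.1, v.2 = cls C y0 v.1 y}

open Classical in
/-- the map in barycentric coordinates -/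
noncomputable def bary (C : ℝ) (y0 : M) (y : M) (v : Vert C y0) : ℝ :=
  if cls C y0 v.1.1 y = v.1.2 then tent C y0 v.1.1 y else 0

theorem tent_nonneg (C : ℝ) (y0 : M) (k : ℕ) (y : M) : 0 ≤ tent C y0 k y := le_max_left _ _

theorem tent_continuous {C : ℝ} (y0 : M) (k : ℕ) : Continuous (tent C y0 k) := by
  unfold tent
  fun_prop

theorem bary_nonneg (C : ℝ) (y0 : M) (y : M) (v : Vert C y0) : 0 ≤ bary C y0 y v := by
  unfold bary; split_ifs
  · exact tent_nonneg _ _ _ _
  · exact le_rfl

theorem bary_le (C : ℝ) (y0 : M) (y : M) (v : Vert C y0) : bary C y0 y v ≤ tent C y0 v.1.1 y := by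
  unfold bary; split_ifs
  · exact le_rfl
  · exact tent_nonneg _ _ _ _

theorem ann_open (C : ℝ) (y0 : M) (k : ℕ) : IsOpen (Ann C y0 k) := by
  have h1 : IsOpen {z : M | ((k : ℝ) - 1) * C < dist z y0} :=
    isOpen_lt continuous_const (continuous_id.dist continuous_const)
  have h2 : IsOpen {z : M | dist z y0 < ((k : ℝ) - 1) * C + 2 * C} :=
    isOpen_lt (continuous_id.dist continuous_const) continuous_const
  exact h1.inter h2

theorem cls_eq {C : ℝ} {y0 : M} {k : ℕ} {y y' : M} (h : Ch C (Ann C y0 k) y y') :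
    cls C y0 k y = cls C y0 k y' := by
  ext z
  exact ⟨fun h' => h.symm.trans h', fun h' => h.trans h'⟩

theorem bary_continuous {C : ℝ} (hC : 0 < C) (y0 : M) (v : Vert C y0) :
    Continuous (fun y => bary C y0 y v) := by
  classical
  rw [continuous_iff_continuousAt]
  intro y1
  by_cases h1 : y1 ∈ Ann C y0 v.1.1
  · have hev : ∀ᶠ y in 𝓝 y1, bary C y0 y v =
        if cls C y0 v.1.1 y1 = v.1.2 then tent C y0 v.1.1 y else 0 := by
      filter_upwards [(ann_open C y0 v.1.1).mem_nhds h1, Metric.ball_mem_nhds y1 hC] with y hy hy2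
      have : cls C y0 v.1.1 y1 = cls C y0 v.1.1 y := by
        refine cls_eq (ReflTransGen.single ⟨h1, hy, ?_⟩)
        rw [dist_comm]; exact hy2
      unfold bary
      rw [this]
    refine ContinuousAt.congr ?_ (hev.mono fun _ h => h.symm)
    split_ifs
    · exact (tent_continuous y0 _).continuousAt
    · exact continuousAt_const
  · have h0 : tent C y0 v.1.1 y1 = 0 := by
      have := mt (tent_pos_iff hC).1 h1
      exact le_antisymm (not_lt.1 this) (tent_nonneg _ _ _ _)
    have h2 : bary C y0 y1 v = 0 := le_antisymm (h0 ▸ bary_le C y0 y1 v) (bary_nonneg _ _ _ _)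
    have h3 : Tendsto (tent C y0 v.1.1) (𝓝 y1) (𝓝 0) := by
      have := (tent_continuous (C := C) y0 v.1.1).tendsto y1
      rwa [h0] at this
    show Tendsto (fun y => bary C y0 y v) (𝓝 y1) (𝓝 (bary C y0 y1 v))
    rw [h2]
    exact squeeze_zero (fun y => bary_nonneg _ _ _ _) (fun y => bary_le _ _ _ _) h3

/-- the complete graph on the vertices -/
def cgraph (V : Type*) : PreAbstractSimplicialComplex V where
  faces := {s | s.Nonempty ∧ s.card ≤ 2}
  isRelLowerSet_faces := by
    rintro s ⟨h1, h2⟩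
    refine ⟨h1, fun t hts ht => ⟨ht, (Finset.card_le_card hts).trans h2⟩⟩

theorem bary_mem {C : ℝ} (hC : 0 < C) (y0 y : M) :
    (∀ v, 0 ≤ bary C y0 y v) ∧ ∃ s ∈ (cgraph (Vert C y0)).faces,
      (∀ v, v ∉ s → bary C y0 y v = 0) ∧ ∑ v ∈ s, bary C y0 y v = 1 := by
  classical
  refine ⟨bary_nonneg C y0 y, ?_⟩
  set a : ℝ := dist y y0 / C with ha
  have ha0 : 0 ≤ a := by positivity
  set k := ⌊a⌋₊ with hk
  have h1 : (k : ℝ) ≤ a := Nat.floor_le ha0
  have h2 : a < k + 1 := Nat.lt_floor_add_one a
  have ht0 : tent C y0 k y = 1 - (a - k) := by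
    unfold tent
    rw [← ha, abs_of_nonneg (by linarith), max_eq_right (by linarith)]
  have ht1 : tent C y0 (k + 1) y = a - k := by
    unfold tent
    push_cast
    rw [← ha, abs_of_nonpos (by linarith), max_eq_right (by linarith)]
    ring
  have htz : ∀ m : ℕ, m ≠ k → m ≠ k + 1 → tent C y0 m y = 0 := by
    intro m hm hm'
    unfold tent
    rw [← ha]
    refine max_eq_left ?_
    rcases lt_or_gt_of_ne hm with h | h
    · have : (m : ℝ) + 1 ≤ k := by exact_mod_cast h
      rw [abs_of_nonneg (by linarith)]; linarith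
    · have : k + 2 ≤ m := by omega
      have : (k : ℝ) + 2 ≤ m := by exact_mod_cast this
      rw [abs_of_nonpos (by linarith)]; linarith
  have hy0 : y ∈ Ann C y0 k := (tent_pos_iff hC).1 (by rw [ht0]; linarith)
  let v0 : Vert C y0 := ⟨(k, cls C y0 k y), y, hy0, rfl⟩
  have hv0 : bary C y0 y v0 = 1 - (a - k) := by
    simp only [bary, v0, if_true, ht0]
  rcases h1.lt_or_eq with hlt | heq
  · have hy1 : y ∈ Ann C y0 (k + 1) := (tent_pos_iff hC).1 (by rw [ht1]; linarith)
    let v1 : Vert C y0 := ⟨(k + 1, cls C y0 (k + 1) y), y, hy1, rfl⟩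
    have hv1 : bary C y0 y v1 = a - k := by
      simp only [bary, v1, if_true, ht1]
    have hne : v0 ≠ v1 := by
      intro h
      have := congrArg (fun v : Vert C y0 => v.1.1) h
      simp only [v0, v1] at this
      omega
    refine ⟨{v0, v1}, ⟨⟨v0, by simp⟩, Finset.card_le_two⟩, ?_, ?_⟩
    · intro v hv
      simp only [Finset.mem_insert, Finset.mem_singleton, not_or] at hv
      unfold bary
      split_ifs with hcl
      · by_cases hm : v.1.1 = k
        · exfalso
          apply hv.1
          apply Subtype.ext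
          show v.1 = (k, cls C y0 k y)
          rw [← hm]; exact Prod.ext rfl hcl.symm
        · by_cases hm' : v.1.1 = k + 1
          · exfalso
            apply hv.2
            apply Subtype.ext
            show v.1 = (k + 1, cls C y0 (k + 1) y)
            rw [← hm']; exact Prod.ext rfl hcl.symm
          · exact htz _ hm hm'
      · rfl
    · rw [Finset.sum_pair hne, hv0, hv1]; ring
  · have hak : a - k = 0 := by linarith
    refine ⟨{v0}, ⟨⟨v0, by simp⟩, by simp⟩, ?_, ?_⟩
    · intro v hv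
      simp only [Finset.mem_singleton] at hv
      unfold bary
      split_ifs with hcl
      · by_cases hm : v.1.1 = k
        · exfalso
          apply hv
          apply Subtype.ext
          show v.1 = (k, cls C y0 k y)
          rw [← hm]; exact Prod.ext rfl hcl.symm
        · by_cases hm' : v.1.1 = k + 1
          · rw [hm', ht1, hak]
          · exact htz _ hm hm'
      · rfl
    · rw [Finset.sum_singleton, hv0, hak]; ring

/-- the map to the graph -/
noncomputable def toGraph {C : ℝ} (hC : 0 < C) (y0 : M) (y : M) :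
    Realization (cgraph (Vert C y0)) := ⟨bary C y0 y, bary_mem hC y0 y⟩

theorem toGraph_continuous {C : ℝ} (hC : 0 < C) (y0 : M) : Continuous (toGraph hC y0) :=
  Continuous.subtype_mk (continuous_pi fun v => bary_continuous hC y0 v) _

theorem toGraph_fibre {C : ℝ} (hC : 0 < C) (y0 : M) {y y' : M}
    (h : toGraph hC y0 y = toGraph hC y0 y') :
    ∃ k, y ∈ Ann C y0 k ∧ Ch C (Ann C y0 k) y y' := by
  classical
  have h' : bary C y0 y = bary C y0 y' := congrArg Subtype.val h
  set a : ℝ := dist y y0 / C with ha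
  have ha0 : 0 ≤ a := by positivity
  set k := ⌊a⌋₊ with hk
  have h1 : (k : ℝ) ≤ a := Nat.floor_le ha0
  have h2 : a < k + 1 := Nat.lt_floor_add_one a
  have ht0 : tent C y0 k y = 1 - (a - k) := by
    unfold tent
    rw [← ha, abs_of_nonneg (by linarith), max_eq_right (by linarith)]
  have hy0 : y ∈ Ann C y0 k := (tent_pos_iff hC).1 (by rw [ht0]; linarith)
  let v0 : Vert C y0 := ⟨(k, cls C y0 k y), y, hy0, rfl⟩
  have hv0 : 0 < bary C y0 y v0 := by
    simp only [bary, v0, if_true, ht0]; linarith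
  rw [h'] at hv0
  have hcl : cls C y0 k y' = cls C y0 k y := by
    by_contra hne
    simp only [bary, v0, if_neg hne, lt_irrefl] at hv0
  refine ⟨k, hy0, ?_⟩
  have : y' ∈ cls C y0 k y' := ReflTransGen.refl
  rw [hcl] at this
  exact this

theorem vert_finite [CompactSpace M] {C : ℝ} (hC : 0 < C) (y0 : M) : Finite (Vert C y0) := by
  classical
  have hbd : ∃ R : ℝ, ∀ y : M, dist y y0 ≤ R := by
    obtain ⟨R, hR⟩ := (isCompact_univ (X := M)).isBounded.subset_closedBall y0
    exact ⟨R, fun y => hR (mem_univ y)⟩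
  obtain ⟨R, hR⟩ := hbd
  choose yy hyy1 hyy2 using fun v : Vert C y0 => v.2
  have hk : ∀ k : ℕ, {v : Vert C y0 | v.1.1 = k}.Finite := by
    intro k
    refine finite_of_separated hC yy y0 R (fun v _ => hR _) ?_
    intro v hv v' hv' hd
    have e : v.1.1 = v'.1.1 := by
      rw [mem_ofPred_eq] at hv hv'
      rw [hv, hv']
    have h1 := hyy1 v
    have h2 := hyy1 v'
    rw [← e] at h2
    have h3 : cls C y0 v.1.1 (yy v) = cls C y0 v.1.1 (yy v') :=
      cls_eq (ReflTransGen.single ⟨h1, h2, hd⟩)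
    apply Subtype.ext
    refine Prod.ext e ?_
    rw [hyy2 v, hyy2 v', h3, e]
  obtain ⟨N, hN⟩ := exists_nat_gt (R / C + 1)
  have : (Set.univ : Set (Vert C y0)) ⊆ ⋃ k ∈ Finset.range N, {v : Vert C y0 | v.1.1 = k} := by
    intro v _
    simp only [mem_iUnion, Finset.mem_range, mem_ofPred_eq, exists_prop]
    refine ⟨v.1.1, ?_, rfl⟩
    have h1 := (hyy1 v).1
    have h2 := hR (yy v)
    have h3 : ((v.1.1 : ℝ) - 1) * C < R := by linarith
    have h4 : (v.1.1 : ℝ) - 1 < R / C := by rw [lt_div_iff₀ hC]; exact h3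
    have h5 : (v.1.1 : ℝ) < N := by linarith
    exact_mod_cast h5
  have hfin : (Set.univ : Set (Vert C y0)).Finite :=
    (Set.Finite.biUnion (Finset.finite_toSet _) (fun k _ => hk k)).subset this
  exact Set.finite_univ_iff.1 hfin

end

/-! ### From the width of `X` to potentials -/

theorem onEdge_of_realization {V : Type*} {K : PreAbstractSimplicialComplex V} (hK : DimLE K 1)
    (y : Realization K) : OnEdge y.1 := by
  classical
  obtain ⟨y, h0, s, hs, h1, h2⟩ := y
  refine ⟨h0, ?_⟩
  have hc := hK s hs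
  have hne : s.Nonempty := (K.isRelLowerSet_faces hs).1
  have hpos := Finset.card_pos.2 hne
  have : s.card = 1 ∨ s.card = 2 := by omega
  rcases this with h | h
  · obtain ⟨a, rfl⟩ := Finset.card_eq_one.1 h
    refine ⟨a, a, fun v hv _ => h1 v (by simpa using hv), Or.inl ⟨rfl, by simpa using h2⟩⟩
  · obtain ⟨a, b, hab, rfl⟩ := Finset.card_eq_two.1 h
    refine ⟨a, b, fun v hv hv' => h1 v (by simp [hv, hv']), Or.inr ⟨hab, ?_⟩⟩
    rwa [Finset.sum_pair hab] at h2

theorem hasPot_of_width {X : Type u} [MetricSpace X] [SimplyConnectedSpace X] (hGeo : Geo X)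
    {C : ℝ} (hC : 0 < C) (hw : urysohnWidth 1 X < ENNReal.ofReal C) : HasPot C X := by
  unfold urysohnWidth at hw
  simp only [iInf_lt_iff] at hw
  obtain ⟨V, K, hK, f, hf, hlt⟩ := hw
  intro L ρ p hL hp hρ
  have hfv : ∀ v, Continuous fun x => (f x).1 v := fun v =>
    (continuous_apply v).comp (continuous_subtype_val.comp hf)
  have hfib : ∀ x y, (f x).1 = (f y).1 → dist x y ≤ C := by
    intro x y h
    have h' : f x = f y := Subtype.ext h
    have h1 : edist x y ≤ Metric.ediam (f ⁻¹' {f y}) :=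
      Metric.edist_le_ediam_of_mem (by rw [mem_preimage, mem_singleton_iff]; exact h')
        (by rw [mem_preimage, mem_singleton_iff])
    have h2 : edist x y ≤ ENNReal.ofReal C :=
      (h1.trans (le_iSup (fun y => Metric.ediam (f ⁻¹' {y})) (f y))).trans hlt.le
    rw [edist_dist] at h2
    exact (ENNReal.ofReal_le_ofReal_iff hC.le).1 h2
  obtain ⟨θ, hθ⟩ := exists_pot (f := fun x => (f x).1) hfv
    (fun x => onEdge_of_realization hK (f x)) hC.le hfib hL hp (ρ := ρ - L * C) (by linarith) hGeo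
  refine ⟨θ, ?_⟩
  rwa [sub_add_cancel] at hθ

theorem le_of_scaled {a c : ℝ≥0∞} {k : ℝ} (hk : 0 < k)
    (h : ∀ C : ℝ, 0 < C → a < ENNReal.ofReal C → c ≤ ENNReal.ofReal (k * C)) :
    c ≤ ENNReal.ofReal k * a := by
  have hk' : ENNReal.ofReal k ≠ 0 := by
    rw [Ne, ENNReal.ofReal_eq_zero]; linarith
  rcases eq_or_ne a ⊤ with ha | ha
  · rw [ha, ENNReal.mul_top hk']; exact le_top
  · refine le_of_forall_gt fun d hd => ?_
    rcases eq_or_ne d ⊤ with hd' | hd'
    · rw [hd']
      have h1 := h (a.toReal + 1) (by positivity) (by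
        rw [ENNReal.lt_ofReal_iff_toReal_lt ha]; linarith)
      exact lt_of_le_of_lt h1 ENNReal.ofReal_lt_top
    · obtain ⟨e, he1, he2⟩ := exists_between hd
      have he : e ≠ ⊤ := (lt_trans he2 (lt_top_iff_ne_top.2 hd')).ne
      have hlt : a < ENNReal.ofReal (e.toReal / k) := by
        rw [ENNReal.lt_ofReal_iff_toReal_lt ha, lt_div_iff₀ hk]
        have h3 : (ENNReal.ofReal k * a).toReal < e.toReal :=
          (ENNReal.toReal_lt_toReal (ENNReal.mul_ne_top ENNReal.ofReal_ne_top ha) he).2 he1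
        rw [ENNReal.toReal_mul, ENNReal.toReal_ofReal hk.le] at h3
        linarith
      have hpos : 0 < e.toReal / k := by
        rw [ENNReal.lt_ofReal_iff_toReal_lt ha] at hlt
        exact lt_of_le_of_lt ENNReal.toReal_nonneg hlt
      have h4 := h _ hpos hlt
      rw [mul_div_cancel₀ _ hk.ne', ENNReal.ofReal_toReal he] at h4
      exact lt_of_le_of_lt h4 he2


/-- **Main theorem.** -/
theorem main {X : Type u} {M : Type v} {G : Type w} [MetricSpace X] [ProperSpace X]
    [SimplyConnectedSpace X] (hX : IsGeodesic X) [MetricSpace M] [Group G] [MulAction G X]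
    [IsIsometricSMul G X] (π : X → M) (hπ : Function.Surjective π)
    (hdist : ∀ x y, dist (π x) (π y) = ⨅ γ : G, dist x (γ • y))
    (b : ℕ) (hb : Module.rank ℚ (Additive G →+ ℚ) ≤ b) :
    urysohnWidth 1 M ≤ 1328 * (b + 1) * urysohnWidth 1 X ∧
      (CompactSpace M → urysohnWidthFin 1 M ≤ 1328 * (b + 1) * urysohnWidth 1 X) := by
  have hGeo : Geo X := hX
  have hk : (0 : ℝ) < 1328 * (b + 1) := by positivity
  have hke : ENNReal.ofReal (1328 * (b + 1)) = 1328 * ((b : ℝ≥0∞) + 1) := by
    rw [ENNReal.ofReal_mul (by norm_num), ENNReal.ofReal_add (Nat.cast_nonneg b) zero_le_one,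
      ENNReal.ofReal_natCast, ENNReal.ofReal_one]
    congr 1
    norm_num
  obtain ⟨x0⟩ : Nonempty X := inferInstance
  have hfib : ∀ C : ℝ, ∀ hC : 0 < C, urysohnWidth 1 X < ENNReal.ofReal C →
      (⨆ y, Metric.ediam (toGraph hC (π x0) ⁻¹' {y})) ≤ ENNReal.ofReal (1328 * (b + 1) * C) := by
    intro C hC hw
    refine iSup_le fun y => Metric.ediam_le fun z hz z' hz' => ?_
    rw [mem_preimage, mem_singleton_iff] at hz hz'
    obtain ⟨k, hk1, hk2⟩ := toGraph_fibre hC (π x0) (hz.trans hz'.symm)
    have := ann_bound hdist hGeo hC (hasPot_of_width hGeo hC hw) hπ (π x0) hb k hk1 hk2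
    rw [edist_dist]
    refine ENNReal.ofReal_le_ofReal (this.trans (le_of_eq ?_))
    ring
  constructor
  · rw [← hke]
    refine le_of_scaled hk fun C hC hw => ?_
    unfold urysohnWidth
    refine (iInf_le _ (Vert C (π x0))).trans ?_
    refine (iInf_le _ (cgraph _)).trans ?_
    refine (iInf_le _ (fun s hs => hs.2)).trans ?_
    refine (iInf_le _ (toGraph hC (π x0))).trans ?_
    refine (iInf_le _ (toGraph_continuous hC (π x0))).trans ?_
    exact hfib C hC hw
  · intro hM
    rw [← hke]
    refine le_of_scaled hk fun C hC hw => ?_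
    unfold urysohnWidthFin
    refine (iInf_le _ (Vert C (π x0))).trans ?_
    refine (iInf_le _ (vert_finite hC (π x0))).trans ?_
    refine (iInf_le _ (cgraph _)).trans ?_
    refine (iInf_le _ (fun s hs => hs.2)).trans ?_
    refine (iInf_le _ (toGraph hC (π x0))).trans ?_
    refine (iInf_le _ (toGraph_continuous hC (π x0))).trans ?_
    exact hfib C hC hw

end UW727
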