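import Mathlib

/-!
The crossing cocycle in the plane `ℝ × ℝ` (sup metric).
-/

namespace UW727

/-- The point `a` of the plane has sup norm at least `ρ`. -/
def Far (ρ : ℝ) (a : ℝ × ℝ) : Prop := ρ ≤ |a.1| ∨ ρ ≤ |a.2|

/-- `1` on the closed right half plane, `0` elsewhere. -/
noncomputable def sg (a : ℝ × ℝ) : ℤ := if 0 ≤ a.1 then 1 else 0

/-- signed crossing number of the jump `a → b` with the ray `{a.1 = 0, a.2 ≥ 0}`. -/
noncomputable def cr (a b : ℝ × ℝ) : ℤ := if 0 ≤ a.2 ∧ 0 ≤ b.2 then sg b - sg a else 0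

theorem cr_self (a : ℝ × ℝ) : cr a a = 0 := by
  unfold cr; split_ifs <;> simp

theorem cr_symm (a b : ℝ × ℝ) : cr b a = - cr a b := by
  unfold cr
  by_cases h : 0 ≤ a.2 ∧ 0 ≤ b.2
  · rw [if_pos h, if_pos h.symm]; ring
  · rw [if_neg h, if_neg (fun h' => h h'.symm)]; simp

theorem Far.mono {ρ ρ' : ℝ} (h : ρ' ≤ ρ) {a : ℝ × ℝ} (ha : Far ρ a) : Far ρ' a := by
  rcases ha with h1 | h1
  · exact Or.inl (h.trans h1)
  · exact Or.inr (h.trans h1)

theorem Far.of_dist {ρ d : ℝ} {a b : ℝ × ℝ} (ha : Far ρ a) (hd : dist a b ≤ d) :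
    Far (ρ - d) b := by
  rw [Prod.dist_eq, max_le_iff, Real.dist_eq, Real.dist_eq] at hd
  rcases ha with h1 | h1
  · left
    have := abs_sub_abs_le_abs_sub a.1 b.1
    linarith [hd.1]
  · right
    have := abs_sub_abs_le_abs_sub a.2 b.2
    linarith [hd.2]

/-- if a third far point at distance `< ρ` has negative second coordinate, the first two
(far, close, upper half plane) points are on the same side. -/
theorem sg_eq_of_neg {ρ : ℝ} {a b c : ℝ × ℝ} (ha : Far ρ a) (hb : Far ρ b)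
    (hab : dist a b < ρ) (hac : dist a c < ρ) (hbc : dist b c < ρ)
    (h2a : 0 ≤ a.2) (h2b : 0 ≤ b.2) (h2c : c.2 < 0) : sg a = sg b := by
  rw [Prod.dist_eq, max_lt_iff, Real.dist_eq, Real.dist_eq, abs_lt, abs_lt] at hab hac hbc
  have ha1 : ρ ≤ |a.1| := by
    rcases ha with h | h
    · exact h
    · rw [abs_of_nonneg h2a] at h; linarith [hac.2.2]
  have hb1 : ρ ≤ |b.1| := by
    rcases hb with h | h
    · exact h
    · rw [abs_of_nonneg h2b] at h; linarith [hbc.2.2]
  unfold sg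
  rcases le_total 0 a.1 with h | h <;> rcases le_total 0 b.1 with h' | h'
  · rw [if_pos h, if_pos h']
  · rw [abs_of_nonneg h] at ha1; rw [abs_of_nonpos h'] at hb1
    linarith [hab.1.2, hab.1.1]
  · rw [abs_of_nonpos h] at ha1; rw [abs_of_nonneg h'] at hb1
    linarith [hab.1.2, hab.1.1]
  · rw [abs_of_nonpos h] at ha1; rw [abs_of_nonpos h'] at hb1
    have hρ : 0 < ρ := by linarith [hab.1.2, hab.1.1]
    rw [if_neg (by linarith), if_neg (by linarith)]

theorem cr_add {ρ : ℝ} {a b c : ℝ × ℝ} (ha : Far ρ a) (hb : Far ρ b) (hc : Far ρ c)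
    (hab : dist a b < ρ) (hbc : dist b c < ρ) (hac : dist a c < ρ) :
    cr a b + cr b c = cr a c := by
  unfold cr
  by_cases h1 : 0 ≤ a.2 <;> by_cases h2 : 0 ≤ b.2 <;> by_cases h3 : 0 ≤ c.2
  · simp [h1, h2, h3]
  · have := sg_eq_of_neg ha hb hab hac hbc h1 h2 (not_le.1 h3)
    simp [h1, h2, h3, this]
  · have := sg_eq_of_neg ha hc hac hab (by rwa [dist_comm]) h1 h3 (not_le.1 h2)
    simp [h1, h2, h3, this]
  · simp [h1, h2, h3]
  · have := sg_eq_of_neg hb hc hbc (by rwa [dist_comm] at hab) (by rwa [dist_comm] at hac) h2 h3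
      (not_le.1 h1)
    simp [h1, h2, h3, this]
  · simp [h1, h2, h3]
  · simp [h1, h2, h3]
  · simp [h1, h2, h3]

/-! ### Points of a one-dimensional complex: labels -/

/-- `y` is a point of an edge (or a vertex) in barycentric coordinates -/
def OnEdge {V : Type*} (y : V → ℝ) : Prop :=
  (∀ v, 0 ≤ y v) ∧ ∃ a b : V, (∀ v, v ≠ a → v ≠ b → y v = 0) ∧
    ((a = b ∧ y a = 1) ∨ (a ≠ b ∧ y a + y b = 1))

theorem OnEdge.other {V : Type*} {y : V → ℝ} (h : OnEdge y) (v : V) (hv : 0 < y v) :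
    (y v = 1 ∧ ∀ w, w ≠ v → y w = 0) ∨
      ∃ w, w ≠ v ∧ y w = 1 - y v ∧ ∀ u, u ≠ v → u ≠ w → y u = 0 := by
  obtain ⟨_, a, b, h0, h1⟩ := h
  rcases h1 with ⟨rfl, h1⟩ | ⟨hab, h1⟩
  · have hva : v = a := by
      by_contra hne
      exact absurd (h0 v hne hne) hv.ne'
    subst hva
    exact Or.inl ⟨h1, fun w hw => h0 w hw hw⟩
  · right
    have hva : v = a ∨ v = b := by
      by_contra hne
      push Not at hne
      exact absurd (h0 v hne.1 hne.2) hv.ne'
    rcases hva with rfl | rfl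
    · exact ⟨b, hab.symm, by linarith, fun u hu hu' => h0 u hu hu'⟩
    · exact ⟨a, hab, by linarith, fun u hu hu' => h0 u hu' hu⟩

theorem OnEdge.le_one {V : Type*} {y : V → ℝ} (h : OnEdge y) (v : V) : y v ≤ 1 := by
  by_cases hv : 0 < y v
  · rcases h.other v hv with ⟨h1, _⟩ | ⟨w, _, h1, _⟩
    · exact h1.le
    · linarith [h.1 w]
  · linarith

/-- the label of a point `y` at scale `1 / n` -/
noncomputable def lab {V : Type*} (n : ℕ) (y : V → ℝ) : V → ℤ := fun v => ⌊(n : ℝ) * y v + 1 / 4⌋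

theorem lab_close {V : Type*} {n : ℕ} (hn : 0 < n) {y z : V → ℝ} (h : lab n y = lab n z) (v : V) :
    |y v - z v| ≤ 1 / n := by
  have h1 := congrFun h v
  unfold lab at h1
  have hn' : (0 : ℝ) < n := by exact_mod_cast hn
  have h2 := Int.floor_le ((n : ℝ) * y v + 1 / 4)
  have h3 := Int.lt_floor_add_one ((n : ℝ) * y v + 1 / 4)
  have h4 := Int.floor_le ((n : ℝ) * z v + 1 / 4)
  have h5 := Int.lt_floor_add_one ((n : ℝ) * z v + 1 / 4)
  rw [h1] at h2 h3
  rw [abs_le]
  constructor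
  · rw [neg_le_iff_add_nonneg, ← sub_nonneg]
    have : (0 : ℝ) ≤ (n : ℝ) * (y v - z v + 1 / n) := by
      have : (n : ℝ) * (y v - z v + 1 / n) = n * y v - n * z v + 1 := by
        field_simp
      rw [this]; linarith
    have := nonneg_of_mul_nonneg_right this hn'
    linarith
  · have : (0 : ℝ) ≤ (n : ℝ) * (1 / n - (y v - z v)) := by
      have : (n : ℝ) * (1 / n - (y v - z v)) = 1 - (n * y v - n * z v) := by
        field_simp
      rw [this]; linarith
    have := nonneg_of_mul_nonneg_right this hn'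
    linarith

/-- Three points pairwise `1/(8n)`-close have at most two distinct labels. -/
theorem lab_two {V : Type*} {n : ℕ} (hn : 0 < n) {y : Fin 3 → V → ℝ} (hy : ∀ i, OnEdge (y i))
    (hd : ∀ i j v, |y i v - y j v| ≤ 1 / (8 * n)) :
    lab n (y 0) = lab n (y 1) ∨ lab n (y 1) = lab n (y 2) ∨ lab n (y 0) = lab n (y 2) := by
  by_contra hcon
  push Not at hcon
  obtain ⟨h01, h12, h02⟩ := hcon
  have hn' : (0 : ℝ) < n := by exact_mod_cast hn
  have hd' : ∀ i j v, n * y i v ≤ n * y j v + 1 / 8 := by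
    intro i j v
    have h1 := (abs_le.1 (hd i j v)).2
    have h2 : (n : ℝ) * (y i v - y j v) ≤ n * (1 / (8 * n)) := mul_le_mul_of_nonneg_left h1 hn'.le
    have h3 : (n : ℝ) * (1 / (8 * n)) = 1 / 8 := by field_simp
    rw [h3] at h2
    linarith
  obtain ⟨v, hv⟩ := Function.ne_iff.1 h01
  -- the threshold
  obtain ⟨k, i, j, hk1, hk2⟩ : ∃ (k : ℤ) (i j : Fin 3), (n : ℝ) * y i v + 1 / 4 < k ∧
      (k : ℝ) ≤ n * y j v + 1 / 4 := by
    unfold lab at hv
    rcases lt_or_gt_of_ne hv with h | h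
    · exact ⟨⌊(n : ℝ) * y 1 v + 1 / 4⌋, 0, 1, Int.floor_lt.1 h, Int.floor_le _⟩
    · exact ⟨⌊(n : ℝ) * y 0 v + 1 / 4⌋, 1, 0, Int.floor_lt.1 h, Int.floor_le _⟩
  have hk0 : (1 : ℤ) ≤ k := by
    have : (0 : ℝ) < k := by
      have := mul_nonneg hn'.le ((hy i).1 v)
      linarith
    exact_mod_cast this
  have hk0' : (1 : ℝ) ≤ k := by exact_mod_cast hk0
  have hlow : ∀ l, (k : ℝ) - 3 / 8 ≤ n * y l v := fun l => by linarith [hd' j l v]
  have hup : ∀ l, (n : ℝ) * y l v < k - 1 / 8 := fun l => by linarith [hd' l i v]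
  have hpos : ∀ l, 0 < y l v := by
    intro l
    have : (0 : ℝ) < n * y l v := by linarith [hlow l]
    exact (mul_pos_iff_of_pos_left hn').1 this
  -- the other coordinate
  have hone : ∀ l, ¬ (y l v = 1) := by
    intro l h1
    have h2 := hlow l
    have h3 := hup l
    rw [h1, mul_one] at h2 h3
    have h4 : ((n : ℤ) : ℝ) < ((k : ℤ) : ℝ) := by push_cast; linarith
    have h5 : ((k : ℤ) : ℝ) < (((n : ℤ) + 1 : ℤ) : ℝ) := by push_cast; linarith
    have h4' : (n : ℤ) < k := by exact_mod_cast h4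
    have h5' : k < (n : ℤ) + 1 := by exact_mod_cast h5
    omega
  have hoth : ∀ l, ∃ w, w ≠ v ∧ y l w = 1 - y l v ∧ ∀ u, u ≠ v → u ≠ w → y l u = 0 := by
    intro l
    rcases (hy l).other v (hpos l) with h | h
    · exact absurd h.1 (hone l)
    · exact h
  have hkn : k ≤ n := by
    have h1 := hlow 0
    have h2 : (n : ℝ) * y 0 v ≤ n * 1 := mul_le_mul_of_nonneg_left ((hy 0).le_one v) hn'.le
    have h3 : ((k : ℤ) : ℝ) < (((n : ℤ) + 1 : ℤ) : ℝ) := by push_cast; linarith
    have h4 : k < (n : ℤ) + 1 := by exact_mod_cast h3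
    omega
  -- labels away from `v` agree
  have haway : ∀ l m w, w ≠ v → lab n (y l) w = lab n (y m) w := by
    intro l m w hw
    obtain ⟨wl, hwl, hwl1, hwl2⟩ := hoth l
    obtain ⟨wm, hwm, hwm1, hwm2⟩ := hoth m
    have hval : ∀ l' w', y l' w' = 1 - y l' v → ⌊(n : ℝ) * y l' w' + 1 / 4⌋ = n - k := by
      intro l' w' h
      rw [h, Int.floor_eq_iff]
      push_cast
      constructor
      · linarith [hup l']
      · linarith [hlow l']
    have hzero : ⌊(n : ℝ) * (0 : ℝ) + 1 / 4⌋ = 0 := by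
      rw [Int.floor_eq_iff]; constructor <;> norm_num
    unfold lab
    rcases hkn.lt_or_eq with hlt | heq
    · -- same edge
      have hlt' : (k : ℝ) + 1 ≤ n := by exact_mod_cast hlt
      have hwlm : wl = wm := by
        by_contra hne
        have h1 : y m wl = 0 := hwm2 wl hwl hne
        have h2 := hd' l m wl
        rw [h1, hwl1] at h2
        linarith [hup l]
      subst hwlm
      by_cases hww : w = wl
      · subst hww
        rw [hval l w hwl1, hval m w hwm1]
      · rw [hwl2 w hw hww, hwm2 w hw hww]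
    · have hz : ∀ l', ∀ w', w' ≠ v → ⌊(n : ℝ) * y l' w' + 1 / 4⌋ = 0 := by
        intro l' w' hw'
        obtain ⟨w'', h1, h2, h3⟩ := hoth l'
        by_cases h : w' = w''
        · subst h
          rw [hval l' w' h2]; omega
        · rw [h3 w' hw' h, hzero]
      rw [hz l w hw, hz m w hw]
  -- labels at `v` are `k - 1` or `k`
  have hat : ∀ l, lab n (y l) v = k - 1 ∨ lab n (y l) v = k := by
    intro l
    unfold lab
    by_cases h : (k : ℝ) ≤ n * y l v + 1 / 4
    · right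
      rw [Int.floor_eq_iff]
      exact ⟨h, by linarith [hup l]⟩
    · left
      rw [Int.floor_eq_iff]
      push_cast
      exact ⟨by linarith [hlow l], by linarith [not_le.1 h]⟩
  have hext : ∀ l m, lab n (y l) v = lab n (y m) v → lab n (y l) = lab n (y m) := by
    intro l m h
    funext w
    by_cases hw : w = v
    · rw [hw, h]
    · exact haway l m w hw
  rcases hat 0 with h0 | h0 <;> rcases hat 1 with h1 | h1 <;> rcases hat 2 with h2 | h2
  · exact h01 (hext 0 1 (by rw [h0, h1]))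
  · exact h01 (hext 0 1 (by rw [h0, h1]))
  · exact h02 (hext 0 2 (by rw [h0, h2]))
  · exact h12 (hext 1 2 (by rw [h1, h2]))
  · exact h12 (hext 1 2 (by rw [h1, h2]))
  · exact h02 (hext 0 2 (by rw [h0, h2]))
  · exact h01 (hext 0 1 (by rw [h0, h1]))
  · exact h01 (hext 0 1 (by rw [h0, h1]))

end UW727
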