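import Pool.Agent.Work.MP_727c87_gt_helper49.Pot

/-!
From local crossing numbers to a homomorphism of the group.
-/

namespace UW727

open Set Filter Topology Relation

/-- one `C`-step inside `S` -/
def Step {X : Type*} [PseudoMetricSpace X] (C : ℝ) (S : Set X) (a b : X) : Prop :=
  a ∈ S ∧ b ∈ S ∧ dist a b < C

/-- `C`-chains inside `S` -/
def Ch {X : Type*} [PseudoMetricSpace X] (C : ℝ) (S : Set X) : X → X → Prop :=
  ReflTransGen (Step C S)

/-- constant speed geodesics exist -/
def Geo (X : Type*) [PseudoMetricSpace X] : Prop :=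
  ∀ x y : X, ∃ c : Path x y, ∀ s t, dist (c s) (c t) = |(s : ℝ) - t| * dist x y

/-- Global potentials for crossing cocycles at scale `C`. -/
def HasPot (C : ℝ) (X : Type*) [PseudoMetricSpace X] : Prop :=
  ∀ (L ρ : ℝ) (p : X → ℝ × ℝ), 0 ≤ L → (∀ x y, dist (p x) (p y) ≤ L * dist x y) →
    3 * L * C < ρ → ∃ θ : X → ℤ, ∀ z z', Far ρ (p z) → Far ρ (p z') → dist z z' < C →
      θ z' - θ z = cr (p z) (p z')

section chains
variable {X : Type*} [PseudoMetricSpace X] {C : ℝ} {S S' : Set X}

theorem Step.symm {a b : X} (h : Step C S a b) : Step C S b a :=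
  ⟨h.2.1, h.1, by rw [dist_comm]; exact h.2.2⟩

theorem Ch.symm {a b : X} (h : Ch C S a b) : Ch C S b a := by
  induction h with
  | refl => exact ReflTransGen.refl
  | tail _ h ih => exact ReflTransGen.head h.symm ih

theorem Ch.trans {a b c : X} (h : Ch C S a b) (h' : Ch C S b c) : Ch C S a c :=
  ReflTransGen.trans h h'

theorem Ch.mono (hS : S ⊆ S') {a b : X} (h : Ch C S a b) : Ch C S' a b := by
  induction h with
  | refl => exact ReflTransGen.refl
  | tail _ h ih => exact ReflTransGen.tail ih ⟨hS h.1, hS h.2.1, h.2.2⟩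

theorem Ch.mem {a b : X} (ha : a ∈ S) (h : Ch C S a b) : b ∈ S := by
  induction h with
  | refl => exact ha
  | tail _ h _ => exact h.2.1

theorem Ch.of_path (hC : 0 < C) {x y : X} (c : Path x y) (h : ∀ t, c t ∈ S) : Ch C S x y := by
  obtain ⟨δ, hδ, h1⟩ := Metric.uniformContinuous_iff.1
    (CompactSpace.uniformContinuous_of_continuous c.continuous) C hC
  obtain ⟨n, hn⟩ := exists_nat_gt (1 / δ)
  have hn0 : 0 < n := by
    have : (0 : ℝ) < n := lt_trans (by positivity) hn
    exact_mod_cast this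
  have hn' : (0 : ℝ) < n := by exact_mod_cast hn0
  have hn1 : 1 / (n : ℝ) < δ := by
    rw [div_lt_iff₀ hn']
    rw [div_lt_iff₀ hδ] at hn
    linarith
  have key : ∀ k : ℕ, Ch C S (c (gp n 0)) (c (gp n k)) := by
    intro k
    induction k with
    | zero => exact ReflTransGen.refl
    | succ k ih =>
      exact ReflTransGen.tail ih ⟨h _, h _, h1 (lt_of_le_of_lt (gp_dist hn0 k) hn1)⟩
  have := key n
  rwa [gp_zero, gp_self hn0, Path.source, Path.target] at this

theorem Geo.chain (hX : Geo X) (hC : 0 < C) (x y : X) : Ch C univ x y := by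
  obtain ⟨c, _⟩ := hX x y
  exact Ch.of_path hC c (fun _ => mem_univ _)

/-- points on a geodesic are within `dist x y` of `y` (and of `x`) -/
theorem Geo.chain_ball (hX : Geo X) (hC : 0 < C) (x y : X)
    (h : ∀ z, dist x z + dist z y = dist x y → z ∈ S) : Ch C S x y := by
  obtain ⟨c, hc⟩ := hX x y
  refine Ch.of_path hC c (fun t => h _ ?_)
  have h1 := hc 0 t
  have h2 := hc t 1
  rw [Path.source] at h1
  rw [Path.target] at h2
  rw [h1, h2]
  have e1 : |((0 : unitInterval) : ℝ) - t| = t := by
    rw [show ((0 : unitInterval) : ℝ) = 0 from rfl, zero_sub, abs_neg, abs_of_nonneg t.2.1]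
  have e2 : |(t : ℝ) - ((1 : unitInterval) : ℝ)| = 1 - t := by
    rw [show ((1 : unitInterval) : ℝ) = 1 from rfl, abs_sub_comm,
      abs_of_nonneg (by linarith [t.2.2])]
  rw [e1, e2]; ring

/-- a sequence in a bounded subset of a proper space has two `C`-close terms -/
theorem exists_close [ProperSpace X] (hC : 0 < C) (w : ℕ → X) (z : X) (R : ℝ)
    (hw : ∀ n, dist (w n) z ≤ R) : ∃ m n, m < n ∧ dist (w m) (w n) < C := by
  obtain ⟨a, _, θ, hθ, hlim⟩ := (isCompact_closedBall z R).tendsto_subseq
    (fun n => Metric.mem_closedBall.2 (hw n))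
  have h1 := Metric.tendsto_atTop.1 hlim (C / 2) (by positivity)
  obtain ⟨N, hN⟩ := h1
  refine ⟨θ N, θ (N + 1), hθ (Nat.lt_succ_self N), ?_⟩
  have h2 := hN N le_rfl
  have h3 := hN (N + 1) (Nat.le_succ N)
  simp only [Function.comp] at h2 h3
  have := dist_triangle_right (w (θ N)) (w (θ (N + 1))) a
  linarith

/-- a family of pairwise non-`C`-close points in a bounded set is finite -/
theorem finite_of_separated [ProperSpace X] (hC : 0 < C) {ι : Type*} {T : Set ι} (w : ι → X)
    (z : X) (R : ℝ) (hw : ∀ i ∈ T, dist (w i) z ≤ R)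
    (hs : ∀ i ∈ T, ∀ j ∈ T, dist (w i) (w j) < C → i = j) : T.Finite := by
  by_contra hinf
  have hinf' : T.Infinite := hinf
  let e := hinf'.natEmbedding
  obtain ⟨m, n, hmn, h⟩ := exists_close hC (fun k => w (e k)) z R (fun k => hw _ (e k).2)
  have := hs _ (e m).2 _ (e n).2 h
  exact hmn.ne (e.injective (Subtype.ext this))

end chains

/-- equivariant primitive -/
theorem exists_equivariant {G X : Type*} [Group G] [MulAction G X] (κ : G → ℤ)
    (hκ : ∀ g h, κ (g * h) = κ g + κ h) (R : X → X → Prop) (hR : Equivalence R)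
    (hinv : ∀ (g : G) x y, R x y → R (g • x) (g • y)) (hfix : ∀ (g : G) z, R z (g • z) → κ g = 0) :
    ∃ P : X → ℤ, (∀ (g : G) z, P (g • z) = P z + κ g) ∧ ∀ z z', R z z' → P z = P z' := by
  have h1 : κ 1 = 0 := by
    have := hκ 1 1
    rw [mul_one] at this; omega
  have hinvk : ∀ g : G, κ g⁻¹ = - κ g := by
    intro g
    have := hκ g g⁻¹
    rw [mul_inv_cancel, h1] at this; omega
  let S : Setoid X :=
    { r := fun x y => ∃ g : G, R (g • x) y
      iseqv := by
        refine ⟨fun x => ⟨1, by rw [one_smul]; exact hR.refl x⟩, ?_, ?_⟩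
        · rintro x y ⟨g, hg⟩
          refine ⟨g⁻¹, ?_⟩
          have := hinv g⁻¹ _ _ (hR.symm hg)
          rwa [inv_smul_smul] at this
        · rintro x y z ⟨g, hg⟩ ⟨h, hh⟩
          refine ⟨h * g, ?_⟩
          rw [mul_smul]
          exact hR.trans (hinv h _ _ hg) hh }
  let rp : X → X := fun z => (Quotient.mk S z).out
  have hrp : ∀ z, ∃ g : G, R (g • rp z) z := fun z => Quotient.exact (s := S) (Quotient.out_eq _)
  choose g hg using hrp
  have hrp2 : ∀ x y, (∃ g : G, R (g • x) y) → rp x = rp y := by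
    intro x y h
    have : Quotient.mk S x = Quotient.mk S y := Quotient.sound (s := S) h
    simp only [rp, this]
  have hcomp : ∀ (ρ : X) (a b : G), R (a • ρ) (b • ρ) → κ a = κ b := by
    intro ρ a b h
    have h2 := hinv a⁻¹ _ _ h
    rw [inv_smul_smul, ← mul_smul] at h2
    have h3 := hfix _ _ h2
    rw [hκ, hinvk] at h3
    omega
  refine ⟨fun z => κ (g z), ?_, ?_⟩
  · intro a z
    have e : rp z = rp (a • z) := hrp2 _ _ ⟨a, hR.refl _⟩
    have h2 := hg (a • z)
    rw [← e] at h2
    have h3 := hinv a _ _ (hg z)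
    rw [← mul_smul] at h3
    have h4 := hcomp (rp z) _ _ (hR.trans h2 (hR.symm h3))
    have h5 := hκ a (g z)
    show κ (g (a • z)) = κ (g z) + κ a
    omega
  · intro z z' hzz
    have e : rp z = rp z' := hrp2 _ _ ⟨1, by rw [one_smul]; exact hzz⟩
    have h2 := hg z'
    rw [← e] at h2
    exact hcomp (rp z) _ _ (hR.trans (hR.trans (hg z) hzz) (hR.symm h2))

/-! ### The interpolated map -/

/-- cut-off function -/
noncomputable def tau {X : Type*} [PseudoMetricSpace X] (C r : ℝ) (V : Set X) (y : X) : ℝ :=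
  max 0 (min 1 ((Metric.infDist y V - C) / r))

section tau
variable {X : Type*} [PseudoMetricSpace X] {C r : ℝ} {V : Set X}

theorem tau_nonneg (y : X) : 0 ≤ tau C r V y := le_max_left _ _

theorem tau_le_one (y : X) : tau C r V y ≤ 1 := max_le zero_le_one (min_le_left _ _)

theorem tau_lip (hr : 0 < r) (y y' : X) : |tau C r V y - tau C r V y'| ≤ dist y y' / r := by
  unfold tau
  have h1 : |max (0 : ℝ) (min 1 ((Metric.infDist y V - C) / r)) -
      max 0 (min 1 ((Metric.infDist y' V - C) / r))| ≤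
      |(Metric.infDist y V - C) / r - (Metric.infDist y' V - C) / r| := by
    have a1 := abs_max_sub_max_le_max (0 : ℝ) (min 1 ((Metric.infDist y V - C) / r)) 0
      (min 1 ((Metric.infDist y' V - C) / r))
    have a2 := abs_min_sub_min_le_max (1 : ℝ) ((Metric.infDist y V - C) / r) 1
      ((Metric.infDist y' V - C) / r)
    simp only [sub_self, abs_zero] at a1 a2
    have b1 : ∀ x : ℝ, max 0 |x| = |x| := fun x => max_eq_right (abs_nonneg x)
    rw [b1] at a1 a2
    exact a1.trans a2
  refine h1.trans ?_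
  rw [← sub_div, abs_div, abs_of_pos hr]
  gcongr
  have h2 : Metric.infDist y V - C - (Metric.infDist y' V - C) =
    Metric.infDist y V - Metric.infDist y' V := by ring
  rw [h2, abs_le]
  have := Metric.infDist_le_infDist_add_dist (s := V) (x := y) (y := y')
  have := Metric.infDist_le_infDist_add_dist (s := V) (x := y') (y := y)
  rw [dist_comm y' y] at this
  constructor <;> linarith

theorem tau_of_mem (hC : 0 ≤ C) (hr : 0 < r) {y : X} (hy : y ∈ V) : tau C r V y = 0 := by
  unfold tau
  rw [Metric.infDist_zero_of_mem hy]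
  refine max_eq_left ((min_le_right _ _).trans ?_)
  exact div_nonpos_of_nonpos_of_nonneg (by linarith) hr.le

theorem tau_out (hr : 0 < r) {y : X} (hy : r + C ≤ Metric.infDist y V) : tau C r V y = 1 := by
  unfold tau
  have : 1 ≤ (Metric.infDist y V - C) / r := by rw [le_div_iff₀ hr]; linarith
  rw [min_eq_left this, max_eq_right zero_le_one]

/-- interpolation of one coordinate -/
noncomputable def mix (C r : ℝ) (V : Set X) (f : X → ℝ) (c : ℝ) (y : X) : ℝ :=
  (1 - tau C r V y) * f y + tau C r V y * c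

theorem mix_lip (hr : 0 < r) {f : X → ℝ} {c B : ℝ} (hf : ∀ y y', |f y - f y'| ≤ dist y y')
    (hB : ∀ y, |f y| ≤ B) (hc : |c| ≤ B) (y y' : X) :
    |mix C r V f c y - mix C r V f c y'| ≤ (1 + 2 * B / r) * dist y y' := by
  have e : mix C r V f c y - mix C r V f c y' =
      (1 - tau C r V y) * (f y - f y') + (tau C r V y' - tau C r V y) * (f y' - c) := by
    unfold mix; ring
  rw [e]
  have h1 : |(1 - tau C r V y) * (f y - f y')| ≤ dist y y' := by
    rw [abs_mul]
    have a1 : |1 - tau C r V y| ≤ 1 := by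
      rw [abs_le]; constructor <;> linarith [tau_nonneg (C := C) (r := r) (V := V) y,
        tau_le_one (C := C) (r := r) (V := V) y]
    calc _ ≤ 1 * dist y y' := mul_le_mul a1 (hf y y') (abs_nonneg _) zero_le_one
      _ = _ := one_mul _
  have h2 : |(tau C r V y' - tau C r V y) * (f y' - c)| ≤ (dist y y' / r) * (2 * B) := by
    rw [abs_mul]
    have a1 := tau_lip (C := C) (V := V) hr y' y
    rw [dist_comm] at a1
    have a2 : |f y' - c| ≤ 2 * B := (abs_sub _ _).trans (by linarith [hB y'])
    exact mul_le_mul a1 a2 (abs_nonneg _) (by positivity)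
  calc _ ≤ _ := abs_add_le _ _
    _ ≤ dist y y' + (dist y y' / r) * (2 * B) := add_le_add h1 h2
    _ = _ := by ring

end tau

end UW727
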