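import Pool.Agent.Work.MP_727c87_gt_helper49.Ext

/-!
From local crossing numbers to a homomorphism of the group: the extension theorem.
-/

namespace UW727

open Set Filter Topology Relation

section
variable {G X : Type*} [Group G] [PseudoMetricSpace X] [MulAction G X] [IsIsometricSMul G X]

theorem Ch.smul {C : ℝ} {S S' : Set X} (g : G) (h : ∀ z ∈ S, g • z ∈ S') {x y : X}
    (hxy : Ch C S x y) : Ch C S' (g • x) (g • y) := by
  induction hxy with
  | refl => exact ReflTransGen.refl
  | tail _ hs ih => exact ReflTransGen.tail ih ⟨h _ hs.1, h _ hs.2.1, by rw [dist_smul]; exact hs.2.2⟩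

theorem infDist_smul_le {V : Set X} (g : G) (hg : ∀ v ∈ V, g • v ∈ V) (hne : V.Nonempty) (y : X) :
    Metric.infDist (g • y) V ≤ Metric.infDist y V := by
  refine le_of_forall_pos_lt_add ?_
  intro ε hε
  obtain ⟨v, hv, hd⟩ := (Metric.infDist_lt_iff hne).1
    (show Metric.infDist y V < Metric.infDist y V + ε by linarith)
  have := Metric.infDist_le_dist_of_mem (x := g • y) (hg v hv)
  rw [dist_smul] at this
  linarith

theorem Ch.iff_trans {C : ℝ} {S : Set X} {a b c : X} (h : Ch C S a b) : Ch C S a c ↔ Ch C S b c :=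
  ⟨fun h' => h.symm.trans h', fun h' => h.trans h'⟩

variable {C : ℝ} {p : X → ℝ × ℝ} {b : X}

/-- The chain component. -/
def VV (C : ℝ) (p : X → ℝ × ℝ) (b : X) : Set X := {z | Ch C {z | Far (83 * C) (p z)} b z}

theorem VV_far (hb : Far (83 * C) (p b)) {z : X} (hz : z ∈ VV C p b) : Far (83 * C) (p z) :=
  Ch.mem (S := {z | Far (83 * C) (p z)}) hb hz

theorem smul_mem_VV (hpi : ∀ (g : G) x, p (g • x) = p x) {g : G} (hg : g • b ∈ VV C p b) {z : X}
    (hz : z ∈ VV C p b) : g • z ∈ VV C p b := by
  refine Ch.trans hg (Ch.smul g ?_ hz)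
  intro w hw
  simp only [mem_ofPred_eq, hpi] at hw ⊢
  exact hw

/-- The stabiliser of the chain component. -/
def stab (hpi : ∀ (g : G) x, p (g • x) = p x) : Subgroup G where
  carrier := {g | g • b ∈ VV C p b}
  mul_mem' := by
    intro g h hg hh
    simp only [mem_ofPred_eq] at hg hh ⊢
    rw [mul_smul]
    exact smul_mem_VV hpi hg hh
  one_mem' := by
    simp only [mem_ofPred_eq, one_smul]
    exact ReflTransGen.refl
  inv_mem' := by
    intro g hg
    simp only [mem_ofPred_eq] at hg ⊢
    have : Ch C {z | Far (83 * C) (p z)} (g⁻¹ • b) (g⁻¹ • (g • b)) := by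
      refine Ch.smul g⁻¹ ?_ hg
      intro w hw
      simp only [mem_ofPred_eq, hpi] at hw ⊢
      exact hw
    rw [inv_smul_smul] at this
    exact this.symm

theorem mem_stab (hpi : ∀ (g : G) x, p (g • x) = p x) {g : G} :
    g ∈ stab (C := C) (b := b) hpi ↔ g • b ∈ VV C p b := Iff.rfl

/-- if `z` and `g • z` are both in the component, `g` is in the stabiliser -/
theorem mem_stab_of (hpi : ∀ (g : G) x, p (g • x) = p x) {g : G} {z : X} (hz : z ∈ VV C p b)
    (hgz : g • z ∈ VV C p b) : g ∈ stab (C := C) (b := b) hpi := by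
  rw [mem_stab]
  have : Ch C {z | Far (83 * C) (p z)} (g • b) (g • z) := by
    refine Ch.smul g ?_ hz
    intro w hw
    simp only [mem_ofPred_eq, hpi] at hw ⊢
    exact hw
  exact Ch.trans hgz this.symm

variable {θ : X → ℤ} (hθ : ∀ z z', Far (83 * C) (p z) → Far (83 * C) (p z') → dist z z' < C →
      θ z' - θ z = cr (p z) (p z'))

include hθ in
theorem theta_shift (hpi : ∀ (g : G) x, p (g • x) = p x) (g : G) {v : X} (hv : v ∈ VV C p b) :
    θ (g • v) - θ v = θ (g • b) - θ b := by
  induction hv with
  | refl => rfl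
  | @tail c d _ hs ih =>
    have h1 := hθ c d hs.1 hs.2.1 hs.2.2
    have h2 := hθ (g • c) (g • d) (by rw [hpi]; exact hs.1) (by rw [hpi]; exact hs.2.1)
      (by rw [dist_smul]; exact hs.2.2)
    rw [hpi, hpi] at h2
    omega

include hθ in
/-- **Key claim.** -/
theorem key_out (hGeo : Geo X) (hC : 0 < C) (hpot : HasPot C X)
    (hp : ∀ x y, dist (p x) (p y) ≤ dist x y) (hpi : ∀ (g : G) x, p (g • x) = p x)
    (hB : ∀ x, |(p x).1| ≤ 220 * C ∧ |(p x).2| ≤ 220 * C) (hb : Far (83 * C) (p b))
    {h : G} (hh : h ∈ stab (C := C) (b := b) hpi) {z : X}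
    (hch : Ch C {y | 26 * C ≤ Metric.infDist y (VV C p b)} z (h • z)) :
    θ (h • b) = θ b := by
  set V := VV C p b with hV
  have hbV : b ∈ V := ReflTransGen.refl
  have hne : V.Nonempty := ⟨b, hbV⟩
  have hhV : ∀ g ∈ stab (C := C) (b := b) hpi, ∀ v ∈ V, g • v ∈ V := fun g hg v hv =>
    smul_mem_VV hpi hg hv
  -- the nearly nearest point
  obtain ⟨v, hv, hvz⟩ := (Metric.infDist_lt_iff hne).1
    (show Metric.infDist z V < Metric.infDist z V + C by linarith)
  have hr : (0 : ℝ) < 25 * C := by positivity
  set p' : X → ℝ × ℝ := fun y => (mix C (25 * C) V (fun x => (p x).1) (p v).1 y,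
    mix C (25 * C) V (fun x => (p x).2) (p v).2 y) with hp'
  have hpV : ∀ y ∈ V, p' y = p y := by
    intro y hy
    simp only [hp', mix, tau_of_mem hC.le hr hy]
    ext <;> simp
  have hpout : ∀ y, 26 * C ≤ Metric.infDist y V → p' y = p v := by
    intro y hy
    have : tau C (25 * C) V y = 1 := tau_out hr (by linarith)
    simp only [hp', mix, this]
    ext <;> simp
  have hlip : ∀ x y, dist (p' x) (p' y) ≤ (93 / 5) * dist x y := by
    intro x y
    have e : 1 + 2 * (220 * C) / (25 * C) = 93 / 5 := by
      field_simp; norm_num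
    have k1 : ∀ y y', |(p y).1 - (p y').1| ≤ dist y y' := by
      intro y y'
      have := hp y y'
      rw [Prod.dist_eq, max_le_iff, Real.dist_eq, Real.dist_eq] at this
      exact this.1
    have k2 : ∀ y y', |(p y).2 - (p y').2| ≤ dist y y' := by
      intro y y'
      have := hp y y'
      rw [Prod.dist_eq, max_le_iff, Real.dist_eq, Real.dist_eq] at this
      exact this.2
    have m1 := mix_lip (C := C) (V := V) hr (f := fun x => (p x).1) (c := (p v).1) k1
      (fun y => (hB y).1) (hB v).1 x y
    have m2 := mix_lip (C := C) (V := V) hr (f := fun x => (p x).2) (c := (p v).2) k2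
      (fun y => (hB y).2) (hB v).2 x y
    rw [e] at m1 m2
    rw [Prod.dist_eq, Real.dist_eq, Real.dist_eq]
    exact max_le m1 m2
  have hinf : ∀ y, Metric.infDist (h • y) V = Metric.infDist y V := by
    intro y
    refine le_antisymm (infDist_smul_le h (hhV h hh) hne y) ?_
    have := infDist_smul_le (h⁻¹) (hhV _ (inv_mem hh)) hne (h • y)
    rwa [inv_smul_smul] at this
  have hpi' : ∀ y, p' (h • y) = p' y := by
    intro y
    simp only [hp', mix, tau, hinf, hpi]
  obtain ⟨θ', hθ'⟩ := hpot (93 / 5) (56 * C) p' (by norm_num) hlip (by linarith)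
  -- step 1
  have far56 : ∀ {y : X}, y ∈ V → Far (56 * C) (p' y) := by
    intro y hy
    rw [hpV y hy]
    exact (VV_far hb hy).mono (by linarith)
  have s1 : ∀ w, Ch C {z | Far (83 * C) (p z)} v w → θ w - θ v = θ' w - θ' v := by
    intro w hw
    induction hw with
    | refl => ring
    | @tail c d hvc hs ih =>
      have hcV : c ∈ V := Ch.trans hv hvc
      have hdV : d ∈ V := Ch.trans hcV (ReflTransGen.single hs)
      have h1 := hθ c d hs.1 hs.2.1 hs.2.2
      have h2 := hθ' c d (far56 hcV) (far56 hdV) hs.2.2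
      rw [hpV c hcV, hpV d hdV] at h2
      omega
  have hvh : Ch C {z | Far (83 * C) (p z)} v (h • v) := Ch.trans (Ch.symm hv) (hhV h hh v hv)
  have t1 := s1 _ hvh
  -- step 2
  have s2 : Ch C {y | Far (56 * C) (p' y)} v z := by
    refine hGeo.chain_ball hC v z (fun y hy => ?_)
    have i1 : Metric.infDist z V ≤ Metric.infDist y V + dist z y :=
      Metric.infDist_le_infDist_add_dist
    rw [dist_comm z y] at i1
    rw [dist_comm z v] at hvz
    have i2 : dist v y < Metric.infDist y V + C := by linarith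
    -- distance of p' y to p v
    have hm : ∀ f : X → ℝ, (∀ y y', |f y - f y'| ≤ dist y y') →
        |mix C (25 * C) V f (f v) y - f v| ≤ 27 * C := by
      intro f hf
      have e : mix C (25 * C) V f (f v) y - f v = (1 - tau C (25 * C) V y) * (f y - f v) := by
        unfold mix; ring
      rw [e, abs_mul]
      by_cases hcase : 26 * C ≤ Metric.infDist y V
      · have : tau C (25 * C) V y = 1 := tau_out hr (by linarith)
        rw [this]; simp; positivity
      · have a1 : |1 - tau C (25 * C) V y| ≤ 1 := by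
          rw [abs_le]; constructor <;> linarith [tau_nonneg (C := C) (r := 25 * C) (V := V) y,
            tau_le_one (C := C) (r := 25 * C) (V := V) y]
        have a2 := hf y v
        rw [dist_comm] at a2
        have a3 : |f y - f v| ≤ 27 * C := by linarith [not_le.1 hcase]
        calc _ ≤ 1 * (27 * C) := mul_le_mul a1 a3 (abs_nonneg _) zero_le_one
          _ = _ := one_mul _
    have k1 := hm (fun x => (p x).1) (by
      intro y y'
      have := hp y y'
      rw [Prod.dist_eq, max_le_iff, Real.dist_eq, Real.dist_eq] at this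
      exact this.1)
    have k2 := hm (fun x => (p x).2) (by
      intro y y'
      have := hp y y'
      rw [Prod.dist_eq, max_le_iff, Real.dist_eq, Real.dist_eq] at this
      exact this.2)
    have hd : dist (p v) (p' y) ≤ 27 * C := by
      rw [dist_comm, Prod.dist_eq, Real.dist_eq, Real.dist_eq]
      exact max_le k1 k2
    have := Far.of_dist (VV_far hb hv) hd
    refine Far.mono ?_ this
    linarith
  have s3 : ∀ w, Ch C {y | Far (56 * C) (p' y)} v w → θ' w - θ' v = θ' (h • w) - θ' (h • v) := by
    intro w hw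
    induction hw with
    | refl => ring
    | @tail c d _ hs ih =>
      have h1 := hθ' c d hs.1 hs.2.1 hs.2.2
      have h2 := hθ' (h • c) (h • d) (by rw [hpi']; exact hs.1) (by rw [hpi']; exact hs.2.1)
        (by rw [dist_smul]; exact hs.2.2)
      rw [hpi', hpi'] at h2
      omega
  have t2 := s3 _ s2
  -- step 3
  have s4 : ∀ w, Ch C {y | 26 * C ≤ Metric.infDist y V} z w → θ' w = θ' z := by
    intro w hw
    induction hw with
    | refl => rfl
    | @tail c d _ hs ih =>
      have f0 : Far (56 * C) (p v) := (VV_far hb hv).mono (by linarith)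
      have h1 := hθ' c d (by rw [hpout c hs.1]; exact f0) (by rw [hpout d hs.2.1]; exact f0) hs.2.2
      rw [hpout c hs.1, hpout d hs.2.1, cr_self] at h1
      omega
  have t3 := s4 _ hch
  have t4 := theta_shift hθ hpi h hv
  omega

include hθ in
/-- **Extension theorem.** -/
theorem exists_hom [ProperSpace X] (hGeo : Geo X) (hC : 0 < C) (hpot : HasPot C X)
    (hp : ∀ x y, dist (p x) (p y) ≤ dist x y) (hpi : ∀ (g : G) x, p (g • x) = p x)
    (hB : ∀ x, |(p x).1| ≤ 220 * C ∧ |(p x).2| ≤ 220 * C) (hb : Far (83 * C) (p b)) :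
    ∃ φ : G → ℤ, (∀ g h, φ (g * h) = φ g + φ h) ∧
      ∀ γ : G, Ch C {z | Far (109 * C) (p z)} b (γ • b) → φ γ = θ (γ • b) - θ b := by
  classical
  set V := VV C p b with hV
  have hbV : b ∈ V := ReflTransGen.refl
  have hne : V.Nonempty := ⟨b, hbV⟩
  set K : Subgroup G := stab (C := C) (b := b) hpi with hK
  have hKV : ∀ g ∈ K, ∀ v ∈ V, g • v ∈ V := fun g hg v hv => smul_mem_VV hpi hg hv
  set Nc : Set X := {y | 26 * C ≤ Metric.infDist y V} with hNc
  have hVN : ∀ v ∈ V, v ∉ Nc := by
    intro v hv hv'
    have := Metric.infDist_zero_of_mem hv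
    simp only [hNc, mem_ofPred_eq, this] at hv'
    linarith
  have hKN : ∀ g ∈ K, ∀ y ∈ Nc, g • y ∈ Nc := by
    intro g hg y hy
    simp only [hNc, mem_ofPred_eq] at hy ⊢
    have := infDist_smul_le (g⁻¹) (hKV _ (inv_mem hg)) hne (g • y)
    rw [inv_smul_smul] at this
    linarith
  -- the equivariant function off `V`
  obtain ⟨P0, hP1, hP2⟩ := exists_equivariant (G := K) (X := X)
    (fun g => θ ((g : G) • b) - θ b) (by
      rintro ⟨g, hg⟩ ⟨h, hh⟩
      have := theta_shift hθ hpi g ((mem_stab hpi).1 hh)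
      show θ ((g * h) • b) - θ b = (θ (g • b) - θ b) + (θ (h • b) - θ b)
      rw [mul_smul]
      omega) (Ch C Nc) ⟨fun _ => ReflTransGen.refl, fun h => h.symm, fun h h' => h.trans h'⟩
    (by
      rintro ⟨g, hg⟩ x y hxy
      exact Ch.smul g (hKN g hg) hxy)
    (by
      rintro ⟨g, hg⟩ z hz
      show θ (g • b) - θ b = 0
      have : θ (g • b) = θ b := key_out hθ hGeo hC hpot hp hpi hB hb hg hz
      omega)
  let P : X → ℤ := fun z => if z ∈ V then θ z else P0 z
  have hPs : ∀ g ∈ K, ∀ z, P (g • z) = P z + (θ (g • b) - θ b) := by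
    intro g hg z
    by_cases hz : z ∈ V
    · have hgz := hKV g hg z hz
      simp only [P, if_pos hz, if_pos hgz]
      have := theta_shift hθ hpi g hz
      omega
    · have hgz : g • z ∉ V := by
        intro h
        have := hKV g⁻¹ (inv_mem hg) _ h
        rw [inv_smul_smul] at this
        exact hz this
      simp only [P, if_neg hz, if_neg hgz]
      exact hP1 ⟨g, hg⟩ z
  have hPN : ∀ z z', z ∈ Nc → z' ∈ Nc → dist z z' < C → P z = P z' := by
    intro z z' hz hz' hd
    have h1 : z ∉ V := fun h => hVN z h hz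
    have h2 : z' ∉ V := fun h => hVN z' h hz'
    simp only [P, if_neg h1, if_neg h2]
    exact hP2 z z' (ReflTransGen.single ⟨hz, hz', hd⟩)
  -- finiteness
  have hfin : ∀ z, {q : G ⧸ K | (q.out)⁻¹ • z ∉ Nc}.Finite := by
    intro z
    have hex : ∀ q : G ⧸ K, ∃ v, (q.out)⁻¹ • z ∉ Nc → v ∈ V ∧ dist ((q.out)⁻¹ • z) v < 26 * C := by
      intro q
      by_cases h : (q.out)⁻¹ • z ∉ Nc
      · simp only [hNc, mem_ofPred_eq, not_le] at h
        obtain ⟨v, hv, hd⟩ := (Metric.infDist_lt_iff hne).1 h
        exact ⟨v, fun _ => ⟨hv, hd⟩⟩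
      · exact ⟨z, fun h' => absurd h' h⟩
    choose v hv using hex
    refine finite_of_separated hC (fun q => q.out • v q) z (26 * C) ?_ ?_
    · intro q hq
      have := (hv q hq).2
      have e : dist (q.out • v q) z = dist ((q.out)⁻¹ • z) (v q) := by
        rw [← dist_smul q.out ((q.out)⁻¹ • z) (v q), smul_inv_smul, dist_comm]
      rw [e]; exact this.le
    · intro q hq q' hq' hd
      have a1 : Ch C {z | Far (83 * C) (p z)} b (v q) := (hv q hq).1
      have a2 : Ch C {z | Far (83 * C) (p z)} b (v q') := (hv q' hq').1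
      have inv : ∀ (g : G), ∀ z ∈ {z | Far (83 * C) (p z)}, g • z ∈ {z | Far (83 * C) (p z)} := by
        intro g w hw
        simp only [mem_ofPred_eq, hpi] at hw ⊢
        exact hw
      have b1 : Ch C {z | Far (83 * C) (p z)} (q.out • b) (q.out • v q) :=
        Ch.smul q.out (inv _) a1
      have b2 : Ch C {z | Far (83 * C) (p z)} (q'.out • b) (q'.out • v q') :=
        Ch.smul q'.out (inv _) a2
      have f1 : Far (83 * C) (p (v q)) := VV_far hb a1
      have f2 : Far (83 * C) (p (v q')) := VV_far hb a2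
      have b3 : Ch C {z | Far (83 * C) (p z)} (q.out • v q) (q'.out • v q') :=
        ReflTransGen.single ⟨by rw [mem_ofPred_eq, hpi]; exact f1,
          by rw [mem_ofPred_eq, hpi]; exact f2, hd⟩
      have b4 : Ch C {z | Far (83 * C) (p z)} (q.out • b) (q'.out • b) :=
        (b1.trans b3).trans b2.symm
      have b5 := Ch.smul (q.out)⁻¹ (inv _) b4
      rw [inv_smul_smul, ← mul_smul] at b5
      have b6 : (q.out)⁻¹ * q'.out ∈ K := (mem_stab hpi).2 b5
      have := QuotientGroup.eq.2 b6
      rwa [QuotientGroup.out_eq', QuotientGroup.out_eq'] at this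
  -- the increments
  let T : G ⧸ K → X → X → ℤ := fun q x y => P ((q.out)⁻¹ • y) - P ((q.out)⁻¹ • x)
  have hTfin : ∀ x y, (Function.support (fun q => T q x y)).Finite := by
    intro x y
    have hc := hGeo.chain hC x y
    induction hc with
    | refl =>
      have : (Function.support (fun q => T q x x)) = ∅ := by
        ext q; simp [T]
      rw [this]; exact Set.finite_empty
    | @tail c d _ hs ih =>
      refine ((ih.union (hfin c)).union (hfin d)).subset ?_
      intro q hq
      by_contra hcon
      simp only [mem_union, Function.mem_support, mem_ofPred_eq, not_or, not_not, T] at hcon hq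
      have := hPN _ _ hcon.1.2 hcon.2 (by rw [dist_smul]; exact hs.2.2)
      omega
  let D : X → X → ℤ := fun x y => ∑ᶠ q, T q x y
  have hDadd : ∀ x y z, D x y + D y z = D x z := by
    intro x y z
    simp only [D]
    rw [← finsum_add_distrib (hTfin x y) (hTfin y z)]
    congr 1
    ext q
    simp only [T]; ring
  have hDinv : ∀ (γ : G) x y, D (γ • x) (γ • y) = D x y := by
    intro γ x y
    simp only [D]
    rw [← finsum_comp_equiv (MulAction.toPerm γ⁻¹ : Equiv.Perm (G ⧸ K)) (f := fun q => T q x y)]
    congr 1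
    ext q
    simp only [T, MulAction.toPerm_apply]
    -- compare representatives
    obtain ⟨k, hk⟩ : ∃ k ∈ K, ((γ⁻¹ • q).out : G) = γ⁻¹ * q.out * k := by
      refine ⟨(γ⁻¹ * q.out)⁻¹ * (γ⁻¹ • q).out, ?_, by group⟩
      have h1 : ((γ⁻¹ * q.out : G) : G ⧸ K) = γ⁻¹ • q := by
        conv_rhs => rw [← QuotientGroup.out_eq' q]
        rfl
      have h2 : (((γ⁻¹ • q).out : G) : G ⧸ K) = γ⁻¹ • q := QuotientGroup.out_eq' _
      exact QuotientGroup.eq.1 (h1.trans h2.symm)
    obtain ⟨hk1, hk2⟩ := hk
    have e : ∀ w : X, ((γ⁻¹ • q).out)⁻¹ • w = k⁻¹ • ((q.out)⁻¹ • (γ • w)) := by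
      intro w
      rw [hk2, ← mul_smul, ← mul_smul]
      congr 1
      group
    rw [e, e, hPs _ (inv_mem hk1), hPs _ (inv_mem hk1)]
    ring
  refine ⟨fun γ => D b (γ • b), ?_, ?_⟩
  · intro g h
    have h1 := hDadd b (g • b) ((g * h) • b)
    have h2 := hDinv g b (h • b)
    rw [← mul_smul] at h2
    show D b ((g * h) • b) = D b (g • b) + D b (h • b)
    omega
  · intro γ hγ
    have hsub : {z | Far (109 * C) (p z)} ⊆ {z | Far (83 * C) (p z)} := by
      intro z hz
      exact Far.mono (by linarith) hz
    have hγV : γ • b ∈ V := Ch.mono hsub hγ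
    show D b (γ • b) = θ (γ • b) - θ b
    simp only [D]
    rw [finsum_eq_single _ ((1 : G) : G ⧸ K)]
    · have h1 : (((1 : G) : G ⧸ K).out) ∈ K := by
        have := QuotientGroup.out_eq' ((1 : G) : G ⧸ K)
        have h2 := QuotientGroup.eq.1 this.symm
        simpa using h2
      simp only [T]
      rw [hPs _ (inv_mem h1), hPs _ (inv_mem h1)]
      simp only [P, if_pos hγV, if_pos hbV]
      ring
    · intro q hq
      -- every point of the chain is outside the neighbourhood of the translate
      have hout : ∀ w, w ∈ V → Far (109 * C) (p w) → (q.out)⁻¹ • w ∈ Nc := by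
        intro w hwV hwF
        by_contra hcon
        simp only [hNc, mem_ofPred_eq, not_le] at hcon
        obtain ⟨v, hv, hd⟩ := (Metric.infDist_lt_iff hne).1 hcon
        have hc : Ch C {z | Far (83 * C) (p z)} ((q.out)⁻¹ • w) v := by
          refine hGeo.chain_ball hC _ _ (fun y hy => ?_)
          have h1 : dist (p ((q.out)⁻¹ • w)) (p y) ≤ 26 * C := by
            refine (hp _ _).trans ?_
            linarith [dist_nonneg (x := y) (y := v)]
          rw [hpi] at h1
          have := Far.of_dist hwF h1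
          refine Far.mono ?_ this
          linarith
        have h2 : (q.out)⁻¹ • w ∈ V := Ch.trans hv hc.symm
        have h3 : (q.out)⁻¹ ∈ K := mem_stab_of hpi hwV h2
        apply hq
        have h4 : q.out ∈ K := by simpa using inv_mem h3
        have h5 : ((1 : G) : G ⧸ K) = ((q.out : G) : G ⧸ K) := QuotientGroup.eq.2 (by simpa using h4)
        rw [h5, QuotientGroup.out_eq']
      have hchain : ∀ w, Ch C {z | Far (109 * C) (p z)} b w → T q b w = 0 := by
        intro w hw
        induction hw with
        | refl => simp only [T]; ring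
        | @tail c d hbc hs ih =>
          have hcV : c ∈ V := Ch.mono hsub hbc
          have hdV : d ∈ V := Ch.mono hsub (ReflTransGen.tail hbc hs)
          have h1 := hPN _ _ (hout c hcV hs.1) (hout d hdV hs.2.1)
            (by rw [dist_smul]; exact hs.2.2)
          simp only [T] at ih ⊢
          omega
      exact hchain _ hγ

end

end UW727
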