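import Pool.Agent.Work.MP_727c87_gt_helper49.Hom

/-!
The packing argument.
-/

namespace UW727

open Set Filter Topology Relation

/-- clamp to `[-B, B]` -/
noncomputable def clamp (B a : ℝ) : ℝ := max (-B) (min B a)

theorem clamp_abs {B : ℝ} (hB : 0 ≤ B) (a : ℝ) : |clamp B a| ≤ B := by
  unfold clamp
  rw [abs_le]
  exact ⟨le_max_left _ _, max_le (by linarith) (min_le_left _ _)⟩

theorem clamp_lip {B : ℝ} (a a' : ℝ) : |clamp B a - clamp B a'| ≤ |a - a'| := by
  unfold clamp
  have a1 := abs_max_sub_max_le_max (-B) (min B a) (-B) (min B a')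
  have a2 := abs_min_sub_min_le_max B a B a'
  simp only [sub_self, abs_zero] at a1 a2
  have b1 : ∀ x : ℝ, max 0 |x| = |x| := fun x => max_eq_right (abs_nonneg x)
  rw [b1] at a1 a2
  exact a1.trans a2

theorem clamp_of_ge {B a : ℝ} (hB : 0 ≤ B) (h : B ≤ a) : clamp B a = B := by
  unfold clamp
  rw [min_eq_left h, max_eq_right (by linarith)]

theorem clamp_of_le {B a : ℝ} (hB : 0 ≤ B) (h : a ≤ -B) : clamp B a = -B := by
  unfold clamp
  rw [min_eq_right (by linarith), max_eq_left h]

theorem clamp_ge {B a t : ℝ} (h : t ≤ a) (ht : t ≤ B) : t ≤ clamp B a :=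
  le_max_of_le_right (le_min ht h)

theorem clamp_le {B a t : ℝ} (h : a ≤ t) (ht : -B ≤ t) : clamp B a ≤ t :=
  max_le ht ((min_le_right _ _).trans h)

theorem clamp_nonneg_iff {B a : ℝ} (hB : 0 < B) : 0 ≤ clamp B a ↔ 0 ≤ a := by
  unfold clamp
  constructor
  · intro h
    rcases le_max_iff.1 h with h | h
    · linarith
    · exact (le_min_iff.1 h).2
  · intro h
    exact le_max_of_le_right (le_min hB.le h)

section
variable {G X M : Type*} [Group G] [PseudoMetricSpace X] [MulAction G X] [IsIsometricSMul G X]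
  [MetricSpace M] {π : X → M}
  (hdist : ∀ x y, dist (π x) (π y) = ⨅ γ : G, dist x (γ • y))

omit [IsIsometricSMul G X] in
include hdist in
theorem pi_le (x y : X) (g : G) : dist (π x) (π y) ≤ dist x (g • y) := by
  rw [hdist]
  exact ciInf_le ⟨0, by rintro _ ⟨γ, rfl⟩; exact dist_nonneg⟩ g

include hdist in
theorem pi_lip (x y : X) : dist (π x) (π y) ≤ dist x y := by
  have := pi_le hdist x y 1
  rwa [one_smul] at this

include hdist in
theorem pi_smul (g : G) (x : X) : π (g • x) = π x := by
  have := pi_le hdist (g • x) x g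
  rw [dist_self] at this
  exact dist_le_zero.1 this

omit [IsIsometricSMul G X] in
include hdist in
theorem pi_lift {x y : X} {t : ℝ} (h : dist (π x) (π y) < t) : ∃ g : G, dist x (g • y) < t := by
  rw [hdist] at h
  exact exists_lt_of_ciInf_lt h

include hdist in
theorem chain_lift (hsurj : Function.Surjective π) {C : ℝ} {O : Set M} {x : X} {y' : M}
    (h : Ch C O (π x) y') : ∃ x', π x' = y' ∧ Ch C (π ⁻¹' O) x x' := by
  induction h with
  | refl => exact ⟨x, rfl, ReflTransGen.refl⟩
  | @tail c d _ hs ih =>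
    obtain ⟨w, rfl, hw⟩ := ih
    obtain ⟨u, rfl⟩ := hsurj d
    obtain ⟨g, hg⟩ := pi_lift hdist hs.2.2
    refine ⟨g • u, pi_smul hdist g u, ReflTransGen.tail hw ⟨hs.1, ?_, hg⟩⟩
    show π (g • u) ∈ O
    rw [pi_smul hdist]; exact hs.2.1

/-- potential along chains -/
theorem theta_chain {C ρ : ℝ} {p : X → ℝ × ℝ} {θ : X → ℤ}
    (hθ : ∀ z z', Far ρ (p z) → Far ρ (p z') → dist z z' < C → θ z' - θ z = cr (p z) (p z'))
    {S : Set X} (hS : ∀ z ∈ S, Far ρ (p z)) (f : X → ℤ)
    (hf : ∀ z ∈ S, ∀ z' ∈ S, dist z z' < C → cr (p z) (p z') = f z' - f z) {x y : X}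
    (h : Ch C S x y) : θ y - θ x = f y - f x := by
  induction h with
  | refl => ring
  | @tail c d _ hs ih =>
    have h1 := hθ c d (hS c hs.1) (hS d hs.2.1) hs.2.2
    have h2 := hf c hs.1 d hs.2.1 hs.2.2
    omega

include hdist in
/-- **Packing**: dual homomorphisms. -/
theorem pack [ProperSpace X] (hGeo : Geo X) {C : ℝ} (hC : 0 < C) (hpot : HasPot C X)
    (hsurj : Function.Surjective π) (y0 : M) {s : ℝ} (hs : 220 * C < s) {n : ℕ}
    (y : Fin (n + 1) → M) (hch : ∀ j, Ch C {z | s < dist z y0 ∧ dist z y0 < s + 2 * C} (y 0) (y j))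
    (hy0 : s < dist (y 0) y0 ∧ dist (y 0) y0 < s + 2 * C)
    (hsep : ∀ i j, i ≠ j → 1327 * C ≤ dist (y i) (y j)) :
    ∃ (φ : Fin n → G → ℤ) (γ : Fin n → G), (∀ i g h, φ i (g * h) = φ i g + φ i h) ∧
      ∀ i j, φ i (γ j) = if i = j then -1 else 0 := by
  classical
  set O : Set M := {z | s < dist z y0 ∧ dist z y0 < s + 2 * C} with hO
  obtain ⟨x0, hx0⟩ := hsurj y0
  obtain ⟨b0, hb0⟩ := hsurj (y 0)
  have hlift : ∀ j, ∃ bj, π bj = y j ∧ Ch C (π ⁻¹' O) b0 bj := by
    intro j
    exact chain_lift hdist hsurj (by rw [hb0]; exact hch j)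
  choose bb hb1 hb2 using hlift
  have hbO : ∀ j, π (bb j) ∈ O := by
    intro j
    have : bb j ∈ π ⁻¹' O := Ch.mem (S := π ⁻¹' O) (by
      show π b0 ∈ O
      rw [hb0]; exact hy0) (hb2 j)
    exact this
  -- nearest orbit points
  have hg : ∀ j, ∃ g : G, dist (bb j) (g • x0) < dist (π (bb j)) y0 + C := by
    intro j
    refine pi_lift hdist ?_
    rw [hx0]; linarith
  choose g hg using hg
  -- geodesics
  choose c hc using fun j => hGeo (g j • x0) (bb j)
  set ell : Fin (n + 1) → ℝ := fun j => dist (g j • x0) (bb j) with hell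
  have hell1 : ∀ j, ell j < dist (π (bb j)) y0 + C := by
    intro j
    have := hg j
    rwa [dist_comm] at this
  have hell0 : ∀ j, dist (π (bb j)) y0 ≤ ell j := by
    intro j
    have := pi_lip hdist (bb j) (g j • x0)
    rw [pi_smul hdist, hx0, dist_comm (bb j)] at this
    exact this
  have hellpos : ∀ j, 0 < ell j := by
    intro j
    have := (hbO j).1
    linarith [hell0 j]
  -- radial function along the geodesics
  have hrad : ∀ j (u : unitInterval), dist (π (c j u)) y0 ≤ u * ell j ∧
      u * ell j - C < dist (π (c j u)) y0 := by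
    intro j u
    have h1 := hc j 0 u
    have h2 := hc j u 1
    rw [Path.source] at h1
    rw [Path.target] at h2
    have e1 : |((0 : unitInterval) : ℝ) - u| = u := by
      rw [show ((0 : unitInterval) : ℝ) = 0 from rfl, zero_sub, abs_neg, abs_of_nonneg u.2.1]
    have e2 : |(u : ℝ) - ((1 : unitInterval) : ℝ)| = 1 - u := by
      rw [show ((1 : unitInterval) : ℝ) = 1 from rfl, abs_sub_comm,
        abs_of_nonneg (by linarith [u.2.2])]
    rw [e1] at h1
    rw [e2] at h2
    constructor
    · have := pi_lip hdist (c j u) (g j • x0)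
      rw [pi_smul hdist, hx0, dist_comm (c j u), h1] at this
      exact this
    · have h3 := pi_lip hdist (c j u) (bb j)
      rw [h2] at h3
      have h4 := dist_triangle_left (π (bb j)) y0 (π (c j u))
      have h5 := hell1 j
      have h6 : (1 - (u : ℝ)) * dist (g j • x0) (bb j) = ell j - u * ell j := by
        simp only [hell]; ring
      rw [h6] at h3
      linarith
  -- the point m_i
  have hui : ∀ j, ∃ u : unitInterval, (u : ℝ) * ell j = s - 220 * C := by
    intro j
    have h1 := (hbO j).1
    have h2 := hell0 j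
    refine ⟨⟨(s - 220 * C) / ell j, div_nonneg (by linarith) (hellpos j).le, ?_⟩, ?_⟩
    · rw [div_le_one (hellpos j)]; linarith
    · show (s - 220 * C) / ell j * ell j = _
      rw [div_mul_cancel₀ _ (hellpos j).ne']
  choose um hum using hui
  set μ : Fin (n + 1) → M := fun j => π (c j (um j)) with hμ
  -- the maps
  set p : Fin (n + 1) → X → ℝ × ℝ := fun i z =>
    (clamp (220 * C) (dist (π z) y0 - (s - 220 * C)), clamp (220 * C) (220 * C - dist (π z) (μ i)))
    with hp
  have hBp : (0 : ℝ) < 220 * C := by positivity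
  have hplip : ∀ i x y, dist (p i x) (p i y) ≤ dist x y := by
    intro i x y
    rw [Prod.dist_eq, Real.dist_eq, Real.dist_eq]
    refine max_le ?_ ?_
    · refine (clamp_lip _ _).trans ?_
      have e : dist (π x) y0 - (s - 220 * C) - (dist (π y) y0 - (s - 220 * C)) =
        dist (π x) y0 - dist (π y) y0 := by ring
      rw [e]
      exact (abs_dist_sub_le _ _ _).trans (pi_lip hdist x y)
    · refine (clamp_lip _ _).trans ?_
      have e : 220 * C - dist (π x) (μ i) - (220 * C - dist (π y) (μ i)) =
        dist (π y) (μ i) - dist (π x) (μ i) := by ring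
      rw [e, abs_sub_comm]
      exact (abs_dist_sub_le _ _ _).trans (pi_lip hdist x y)
  have hpinv : ∀ i (g : G) x, p i (g • x) = p i x := by
    intro i g x
    simp only [hp, pi_smul hdist]
  have hpB : ∀ i x, |(p i x).1| ≤ 220 * C ∧ |(p i x).2| ≤ 220 * C := fun i x =>
    ⟨clamp_abs hBp.le _, clamp_abs hBp.le _⟩
  -- behaviour on the annulus
  have hann : ∀ i, ∀ z, π z ∈ O → (p i z).1 = 220 * C := by
    intro i z hz
    exact clamp_of_ge hBp.le (by linarith [hz.1])
  -- behaviour on other geodesics
  have hoth : ∀ i j, j ≠ i → ∀ u, (p i (c j u)).2 = -(220 * C) := by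
    intro i j hji u
    refine clamp_of_le hBp.le ?_
    by_contra hcon
    push Not at hcon
    have hd : dist (π (c j u)) (μ i) < 440 * C := by linarith
    have r1 := hrad j u
    have r2 := hrad i (um i)
    rw [hum i] at r2
    have t1 := dist_triangle_left (μ i) y0 (π (c j u))
    have e2 : dist (c j u) (bb j) = ell j - u * ell j := by
      have h2 := hc j u 1
      rw [Path.target] at h2
      rw [h2, show ((1 : unitInterval) : ℝ) = 1 from rfl, abs_sub_comm,
        abs_of_nonneg (by linarith [u.2.2])]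
      simp only [hell]; ring
    have e3 : dist (c i (um i)) (bb i) = ell i - (s - 220 * C) := by
      have h2 := hc i (um i) 1
      rw [Path.target] at h2
      rw [h2, show ((1 : unitInterval) : ℝ) = 1 from rfl, abs_sub_comm,
        abs_of_nonneg (by linarith [(um i).2.2]), ← hum i]
      simp only [hell]; ring
    have l1 := pi_lip hdist (c j u) (bb j)
    have l2 := pi_lip hdist (c i (um i)) (bb i)
    rw [e2] at l1
    rw [e3] at l2
    rw [hb1] at l1 l2
    have h3 := hell1 j
    have h4 := hell1 i
    have h5 := (hbO j).2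
    have h6 := (hbO i).2
    have h7 := hsep i j (fun h => hji h.symm)
    have t2 := dist_triangle (y i) (μ i) (y j)
    have t3 := dist_triangle (μ i) (π (c j u)) (y j)
    rw [dist_comm (y i) (μ i)] at t2
    rw [dist_comm (μ i) (π (c j u))] at t3
    change dist (μ i) (y i) ≤ _ at l2
    linarith [r2.1, r2.2, r1.1, r1.2]
  -- behaviour on the own geodesic
  have hdm : ∀ i (u : unitInterval), dist (π (c i u)) (μ i) ≤ |u * ell i - (s - 220 * C)| := by
    intro i u
    have h1 := pi_lip hdist (c i u) (c i (um i))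
    rw [hc] at h1
    have e : |(u : ℝ) - um i| * dist (g i • x0) (bb i) = |u * ell i - (s - 220 * C)| := by
      rw [← hum i, ← sub_mul, abs_mul, abs_of_pos (hellpos i)]
    rw [e] at h1
    exact h1
  have hown : ∀ i (u : unitInterval), Far (109 * C) (p i (c i u)) := by
    intro i u
    have r1 := hrad i u
    have d1 := hdm i u
    rcases le_or_gt |u * ell i - (s - 220 * C)| (110 * C) with h | h
    · right
      have : 109 * C ≤ (p i (c i u)).2 := clamp_ge (by linarith) (by linarith)
      exact this.trans (le_abs_self _)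
    · left
      rcases lt_abs.1 h with h | h
      · have : 109 * C ≤ (p i (c i u)).1 := clamp_ge (by linarith [r1.2]) (by linarith)
        exact this.trans (le_abs_self _)
      · have : (p i (c i u)).1 ≤ -(109 * C) := clamp_le (by linarith [r1.1]) (by linarith)
        have h2 := neg_le_abs (p i (c i u)).1
        linarith
  have hsgown : ∀ i (u u' : unitInterval), dist (c i u) (c i u') < C →
      cr (p i (c i u)) (p i (c i u')) = sg (p i (c i u')) - sg (p i (c i u)) := by
    intro i u u' huu
    have hgen : ∀ (u u' : unitInterval), dist (c i u) (c i u') < C → (p i (c i u)).2 < 0 →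
        sg (p i (c i u)) = sg (p i (c i u')) := by
      intro u u' huu h2
      have d1 := hdm i u
      have h3 : 220 * C < dist (π (c i u)) (μ i) := by
        by_contra hcon
        push Not at hcon
        have : 0 ≤ (p i (c i u)).2 := (clamp_nonneg_iff hBp).2 (by linarith)
        linarith
      have h4 : 220 * C < |u * ell i - (s - 220 * C)| := by linarith
      rw [hc] at huu
      have e : |(u : ℝ) - u'| * dist (g i • x0) (bb i) = |u * ell i - u' * ell i| := by
        rw [← sub_mul, abs_mul, abs_of_pos (hellpos i)]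
      rw [e, abs_lt] at huu
      have r1 := hrad i u
      have r2 := hrad i u'
      rcases lt_abs.1 h4 with h | h
      · have a1 : 0 ≤ (p i (c i u)).1 := (clamp_nonneg_iff hBp).2 (by linarith [r1.2])
        have a2 : 0 ≤ (p i (c i u')).1 := (clamp_nonneg_iff hBp).2 (by linarith [r2.2])
        unfold sg
        rw [if_pos a1, if_pos a2]
      · have a1 : ¬ 0 ≤ (p i (c i u)).1 := fun h => by
          have := (clamp_nonneg_iff hBp).1 h
          linarith [r1.1]
        have a2 : ¬ 0 ≤ (p i (c i u')).1 := fun h => by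
          have := (clamp_nonneg_iff hBp).1 h
          linarith [r2.1]
        unfold sg
        rw [if_neg a1, if_neg a2]
    by_cases h1 : 0 ≤ (p i (c i u)).2
    · by_cases h2 : 0 ≤ (p i (c i u')).2
      · unfold cr; rw [if_pos ⟨h1, h2⟩]
      · have := hgen u' u (by rwa [dist_comm]) (not_le.1 h2)
        unfold cr
        rw [if_neg (fun h => h2 h.2), this]; ring
    · have := hgen u u' huu (not_le.1 h1)
      unfold cr
      rw [if_neg (fun h => h1 h.1), this]; ring
  -- potentials
  have hpotp : ∀ i, ∃ θ : X → ℤ, ∀ z z', Far (83 * C) (p i z) → Far (83 * C) (p i z') →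
      dist z z' < C → θ z' - θ z = cr (p i z) (p i z') := by
    intro i
    exact hpot 1 (83 * C) (p i) zero_le_one (fun x y => by rw [one_mul]; exact hplip i x y)
      (by linarith)
  choose θ hθ using hpotp
  -- homomorphisms
  have hbase : ∀ i : Fin n, Far (83 * C) (p i.succ (g 0 • x0)) := by
    intro i
    right
    have h1 := hoth i.succ 0 (Fin.succ_ne_zero i).symm 0
    rw [Path.source] at h1
    rw [h1, abs_neg, abs_of_pos hBp]
    linarith
  have hhom := fun i : Fin n => exists_hom (G := G) (b := g 0 • x0) (hθ i.succ) hGeo hC hpot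
    (hplip i.succ) (hpinv i.succ) (hpB i.succ) (hbase i)
  choose φ hφ1 hφ2 using hhom
  refine ⟨φ, fun j => g j.succ * (g 0)⁻¹, hφ1, fun i j => ?_⟩
  have hend : (g j.succ * (g 0)⁻¹) • (g 0 • x0) = g j.succ • x0 := by
    rw [← mul_smul, inv_mul_cancel_right]
  -- far on the pieces
  have farO : ∀ z, π z ∈ O → Far (109 * C) (p i.succ z) := by
    intro z hz
    left
    rw [hann i.succ z hz, abs_of_pos hBp]; linarith
  have farG : ∀ j u, Far (109 * C) (p i.succ (c j u)) := by
    intro j u
    by_cases h : j = i.succ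
    · subst h; exact hown _ u
    · right
      rw [hoth _ _ h u, abs_neg, abs_of_pos hBp]; linarith
  have c1 : ∀ j, Ch C (range (c j)) (g j • x0) (bb j) := fun j =>
    Ch.of_path hC (c j) (fun t => mem_range_self t)
  have c1' : ∀ j, Ch C {z | Far (109 * C) (p i.succ z)} (g j • x0) (bb j) := by
    intro j
    refine Ch.mono ?_ (c1 j)
    rintro _ ⟨u, rfl⟩
    exact farG j u
  have hbb0 : Ch C (π ⁻¹' O) (bb 0) (bb j.succ) := (hb2 0).symm.trans (hb2 j.succ)
  have c2 : Ch C {z | Far (109 * C) (p i.succ z)} (bb 0) (bb j.succ) := by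
    refine Ch.mono ?_ hbb0
    intro z hz
    exact farO z hz
  have ctot : Ch C {z | Far (109 * C) (p i.succ z)} (g 0 • x0)
      ((g j.succ * (g 0)⁻¹) • (g 0 • x0)) := by
    rw [hend]
    exact ((c1' 0).trans c2).trans (c1' j.succ).symm
  rw [hφ2 i _ ctot, hend]
  have mono83 : ∀ {a : ℝ × ℝ}, Far (109 * C) a → Far (83 * C) a := fun h => h.mono (by linarith)
  -- the three increments
  have i1 : ∀ j, j ≠ i.succ → θ i.succ (bb j) = θ i.succ (g j • x0) := by
    intro j hj
    have := theta_chain (hθ i.succ) (S := range (c j)) (by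
      rintro _ ⟨u, rfl⟩
      exact mono83 (farG j u)) (fun _ => 0) (by
      rintro _ ⟨u, rfl⟩ _ ⟨u', rfl⟩ _
      unfold cr
      rw [if_neg]
      · ring
      · rintro ⟨h, _⟩
        rw [hoth _ _ hj u] at h
        linarith) (c1 j)
    linarith
  have i2 : θ i.succ (bb j.succ) = θ i.succ (bb 0) := by
    have := theta_chain (hθ i.succ) (S := π ⁻¹' O) (fun z hz => mono83 (farO z hz)) (fun _ => 0) (by
      intro z hz z' hz' _
      unfold cr sg
      rw [hann _ z hz, hann _ z' hz']
      simp [hBp.le]) hbb0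
    linarith
  have i3 : θ i.succ (bb i.succ) - θ i.succ (g i.succ • x0) = 1 := by
    have := theta_chain (hθ i.succ) (S := range (c i.succ)) (by
      rintro _ ⟨u, rfl⟩
      exact mono83 (farG _ u)) (fun z => sg (p i.succ z)) (by
      rintro _ ⟨u, rfl⟩ _ ⟨u', rfl⟩ h
      exact hsgown _ u u' h) (c1 i.succ)
    rw [this]
    have a1 : sg (p i.succ (bb i.succ)) = 1 := by
      unfold sg
      rw [hann _ _ (hbO _), if_pos hBp.le]
    have a2 : sg (p i.succ (g i.succ • x0)) = 0 := by
      unfold sg
      rw [if_neg]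
      intro h
      have := (clamp_nonneg_iff hBp).1 h
      rw [pi_smul hdist, hx0, dist_self] at this
      linarith
    simp only [a1, a2]; ring
  have i0 := i1 0 (Fin.succ_ne_zero i).symm
  by_cases hij : i = j
  · subst hij
    rw [if_pos rfl]
    linarith
  · rw [if_neg hij]
    have := i1 j.succ (fun h => hij (Fin.succ_injective _ h).symm)
    linarith

end

end UW727
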