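import Pool.Agent.Work.MP_727c87_gt_helper49.Square

/-!
Path crossing numbers, homotopy invariance and the global potential on a simply connected space.
-/

namespace UW727

open Set Filter Topology

/-- `n` is the crossing number of the path `γ`. -/
def HasCross {X : Type*} (p : X → ℝ × ℝ) (γ : unitInterval → X) (n : ℤ) : Prop :=
  ∃ δ > 0, ∃ u : unitInterval → ℤ,
    (∀ s t, dist s t < δ → u t - u s = cr (p (γ s)) (p (γ t))) ∧ u 1 - u 0 = n

theorem floor_near {a b : ℝ} (ha : 0 ≤ a) (hb : 0 ≤ b) (hab : |a - b| < 1) :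
    ⌊a⌋₊ = ⌊b⌋₊ ∨ ⌊b⌋₊ = ⌊a⌋₊ + 1 ∨ ⌊a⌋₊ = ⌊b⌋₊ + 1 := by
  have h1 := Nat.floor_le ha
  have h2 := Nat.lt_floor_add_one a
  have h3 := Nat.floor_le hb
  have h4 := Nat.lt_floor_add_one b
  rw [abs_lt] at hab
  have h5 : (⌊a⌋₊ : ℝ) < ((⌊b⌋₊ + 2 : ℕ) : ℝ) := by push_cast; linarith
  have h6 : (⌊b⌋₊ : ℝ) < ((⌊a⌋₊ + 2 : ℕ) : ℝ) := by push_cast; linarith
  have h5' : ⌊a⌋₊ < ⌊b⌋₊ + 2 := by exact_mod_cast h5
  have h6' : ⌊b⌋₊ < ⌊a⌋₊ + 2 := by exact_mod_cast h6
  omega

theorem gp_floor {n : ℕ} (hn : 0 < n) (t : unitInterval) :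
    dist (gp n ⌊(n : ℝ) * t⌋₊) t ≤ 1 / n := by
  rw [Subtype.dist_eq, Real.dist_eq]
  have hn' : (0 : ℝ) < n := by exact_mod_cast hn
  have h0 : 0 ≤ (n : ℝ) * t := mul_nonneg hn'.le t.2.1
  have h1 := Nat.floor_le h0
  have h2 := Nat.lt_floor_add_one ((n : ℝ) * t)
  have h3 : (⌊(n : ℝ) * t⌋₊ : ℝ) / n ≤ t := by
    rw [div_le_iff₀ hn']; linarith
  unfold gp
  simp only
  rw [min_eq_left (h3.trans t.2.2), abs_le]
  constructor
  · rw [neg_le_sub_iff_le_add, ← add_div, le_div_iff₀ hn']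
    linarith
  · have : (0 : ℝ) ≤ 1 / n := by positivity
    linarith

theorem hasCross_exists {X : Type*} [PseudoMetricSpace X] {p : X → ℝ × ℝ} (hp : Continuous p)
    {γ : unitInterval → X} (hγ : Continuous γ) {ρ : ℝ} (hρ : 0 < ρ)
    (hfar : ∀ t, Far ρ (p (γ t))) : ∃ n, HasCross p γ n := by
  obtain ⟨δ, hδ, h1⟩ := Metric.uniformContinuous_iff.1
    (CompactSpace.uniformContinuous_of_continuous (hp.comp hγ)) ρ hρ
  obtain ⟨n, hn⟩ := exists_nat_gt (3 / δ)
  have hn0 : 0 < n := by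
    have : (0 : ℝ) < n := lt_trans (by positivity) hn
    exact_mod_cast this
  have hn' : (0 : ℝ) < n := by exact_mod_cast hn0
  have hn1 : 3 * (1 / (n : ℝ)) < δ := by
    rw [mul_one_div, div_lt_iff₀ hn']
    rw [div_lt_iff₀ hδ] at hn
    linarith
  have hn2 : 0 < 1 / (n : ℝ) := by positivity
  set F : unitInterval → ℝ × ℝ := fun t => p (γ t) with hF
  have hadd : ∀ a b c : unitInterval, dist a b < δ → dist b c < δ → dist a c < δ →
      cr (F a) (F b) + cr (F b) (F c) = cr (F a) (F c) := fun a b c h2 h3 h4 =>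
    cr_add (hfar a) (hfar b) (hfar c) (h1 h2) (h1 h3) (h1 h4)
  let k : unitInterval → ℕ := fun t => ⌊(n : ℝ) * t⌋₊
  let u : unitInterval → ℤ := fun t =>
    (∑ j ∈ Finset.range (k t), cr (F (gp n j)) (F (gp n (j + 1)))) + cr (F (gp n (k t))) (F t)
  have hk : ∀ t, dist (gp n (k t)) t ≤ 1 / n := gp_floor hn0
  have hstep : ∀ s t, dist s t < 1 / n → k t = k s + 1 → u t - u s = cr (F s) (F t) := by
    intro s t hst hkt
    simp only [u]
    rw [hkt, Finset.sum_range_succ]
    have d1 := hk s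
    have d2 := hk t
    rw [hkt] at d2
    have d3 := gp_dist hn0 (k s)
    have t1 := dist_triangle (gp n (k s + 1)) t s
    have t2 := dist_comm (gp n (k s + 1)) s
    have t3 := dist_comm s t
    have e1 := hadd (gp n (k s)) s (gp n (k s + 1)) (by linarith) (by linarith) (by linarith)
    have e2 := hadd s (gp n (k s + 1)) t (by linarith) (by linarith) (by linarith)
    linarith
  refine ⟨u 1 - u 0, 1 / n, hn2, u, fun s t hst => ?_, rfl⟩
  have hkk : k s = k t ∨ k t = k s + 1 ∨ k s = k t + 1 := by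
    refine floor_near (mul_nonneg hn'.le s.2.1) (mul_nonneg hn'.le t.2.1) ?_
    rw [← mul_sub, abs_mul, abs_of_pos hn']
    rw [Subtype.dist_eq, Real.dist_eq, lt_div_iff₀ hn'] at hst
    linarith
  rcases hkk with h | h | h
  · simp only [u]
    have d1 := hk s
    have d2 := hk t
    rw [← h] at d2
    rw [← h]
    have e1 := hadd (gp n (k s)) s t (by linarith) (by linarith) (by linarith)
    linarith
  · exact hstep s t hst h
  · have := hstep t s (by rwa [dist_comm]) h
    have h2 := cr_symm (F t) (F s)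
    show u t - u s = cr (F s) (F t)
    rw [h2, ← this]; ring

theorem hasCross_short {X : Type*} {p : X → ℝ × ℝ} {γ : unitInterval → X} {ρ : ℝ}
    (hfar : ∀ t, Far ρ (p (γ t))) (hsh : ∀ s t, dist (p (γ s)) (p (γ t)) < ρ) :
    HasCross p γ (cr (p (γ 0)) (p (γ 1))) := by
  refine ⟨1, one_pos, fun t => cr (p (γ 0)) (p (γ t)), fun s t _ => ?_, ?_⟩
  · have := cr_add (hfar 0) (hfar s) (hfar t) (hsh _ _) (hsh _ _) (hsh _ _)
    simp only
    linarith
  · simp only [cr_self]; ring

theorem hasCross_trans {X : Type*} [PseudoMetricSpace X] {p : X → ℝ × ℝ} (hp : Continuous p)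
    {x y z : X} {γ : Path x y} {γ' : Path y z} {ρ : ℝ} (hρ : 0 < ρ)
    (hfar : ∀ t, Far ρ (p (γ t))) (hfar' : ∀ t, Far ρ (p (γ' t))) {n n' : ℤ}
    (hn : HasCross p γ n) (hn' : HasCross p γ' n') : HasCross p (γ.trans γ') (n + n') := by
  obtain ⟨δ, hδ, u, hu, rfl⟩ := hn
  obtain ⟨δ', hδ', u', hu', rfl⟩ := hn'
  obtain ⟨δ1, hδ1, h1⟩ := Metric.uniformContinuous_iff.1
    (CompactSpace.uniformContinuous_of_continuous (hp.comp γ.continuous)) (ρ / 2) (by positivity)
  obtain ⟨δ2, hδ2, h2⟩ := Metric.uniformContinuous_iff.1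
    (CompactSpace.uniformContinuous_of_continuous (hp.comp γ'.continuous)) (ρ / 2) (by positivity)
  have hδm : 0 < min (min δ δ') (min δ1 δ2) := lt_min (lt_min hδ hδ') (lt_min hδ1 hδ2)
  let u'' : unitInterval → ℤ := fun t => if h : (t : ℝ) ≤ 1 / 2 then
      u ⟨2 * t, (unitInterval.mul_pos_mem_iff zero_lt_two).2 ⟨t.2.1, h⟩⟩
    else u 1 - u' 0 + u' ⟨2 * t - 1, unitInterval.two_mul_sub_one_mem_iff.2 ⟨(not_le.1 h).le, t.2.2⟩⟩
  have key : ∀ s t : unitInterval, dist s t < min (min δ δ') (min δ1 δ2) / 2 → (s : ℝ) ≤ 1 / 2 →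
      ¬ (t : ℝ) ≤ 1 / 2 → u'' t - u'' s = cr (p ((γ.trans γ') s)) (p ((γ.trans γ') t)) := by
    intro s t hst hs ht
    have hst' := hst
    rw [Subtype.dist_eq, Real.dist_eq] at hst
    have hst2 := (abs_lt.1 hst)
    have ht' := not_le.1 ht
    simp only [u'', dif_pos hs, dif_neg ht, Path.trans_apply]
    set a : unitInterval := ⟨2 * s, (unitInterval.mul_pos_mem_iff zero_lt_two).2 ⟨s.2.1, hs⟩⟩
      with ha
    set c : unitInterval := ⟨2 * t - 1, unitInterval.two_mul_sub_one_mem_iff.2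
      ⟨(not_le.1 ht).le, t.2.2⟩⟩ with hc
    have da : dist a 1 < min (min δ δ') (min δ1 δ2) := by
      rw [Subtype.dist_eq, Real.dist_eq]
      show |2 * (s : ℝ) - 1| < _
      rw [abs_lt]; constructor <;> linarith
    have dc : dist 0 c < min (min δ δ') (min δ1 δ2) := by
      rw [Subtype.dist_eq, Real.dist_eq]
      show |0 - (2 * (t : ℝ) - 1)| < _
      rw [abs_lt]; constructor <;> linarith
    have e1 := hu a 1 (lt_of_lt_of_le da ((min_le_left _ _).trans (min_le_left _ _)))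
    have e2 := hu' 0 c (lt_of_lt_of_le dc ((min_le_left _ _).trans (min_le_right _ _)))
    have f1 := h1 (lt_of_lt_of_le da ((min_le_right _ _).trans (min_le_left _ _)))
    have f2 := h2 (lt_of_lt_of_le dc ((min_le_right _ _).trans (min_le_right _ _)))
    simp only [Function.comp, Path.target, Path.source] at e1 e2 f1 f2
    have hy : Far ρ (p y) := by
      have := hfar 1; rwa [Path.target] at this
    have e3 := cr_add (hfar a) hy (hfar' c) (by linarith) (by linarith)
      (by linarith [dist_triangle (p (γ a)) (p y) (p (γ' c))])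
    linarith
  refine ⟨min (min δ δ') (min δ1 δ2) / 2, by positivity, u'', fun s t hst => ?_, ?_⟩
  · by_cases hs : (s : ℝ) ≤ 1 / 2 <;> by_cases ht : (t : ℝ) ≤ 1 / 2
    · simp only [u'', dif_pos hs, dif_pos ht, Path.trans_apply]
      refine hu _ _ ?_
      rw [Subtype.dist_eq, Real.dist_eq] at hst ⊢
      show |2 * (s : ℝ) - 2 * t| < δ
      rw [← mul_sub, abs_mul, abs_two]
      have := (min_le_left (min δ δ') (min δ1 δ2)).trans (min_le_left _ _)
      linarith
    · exact key s t hst hs ht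
    · have := key t s (by rwa [dist_comm]) ht hs
      rw [cr_symm, ← this]; ring
    · simp only [u'', dif_neg hs, dif_neg ht, Path.trans_apply]
      have := hu' ⟨2 * s - 1, unitInterval.two_mul_sub_one_mem_iff.2
          ⟨(not_le.1 hs).le, s.2.2⟩⟩
        ⟨2 * t - 1, unitInterval.two_mul_sub_one_mem_iff.2
          ⟨(not_le.1 ht).le, t.2.2⟩⟩ (by
          rw [Subtype.dist_eq, Real.dist_eq] at hst ⊢
          show |(2 * (s : ℝ) - 1) - (2 * t - 1)| < δ'
          rw [show (2 * (s : ℝ) - 1) - (2 * t - 1) = 2 * (s - t) by ring, abs_mul, abs_two]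
          have := (min_le_left (min δ δ') (min δ1 δ2)).trans (min_le_right _ _)
          linarith)
      rw [← this]; ring
  · have h0 : ((0 : unitInterval) : ℝ) ≤ 1 / 2 := by norm_num
    have h1' : ¬ ((1 : unitInterval) : ℝ) ≤ 1 / 2 := by norm_num
    simp only [u'', dif_pos h0, dif_neg h1']
    have a0 : (⟨2 * ((0 : unitInterval) : ℝ), (unitInterval.mul_pos_mem_iff zero_lt_two).2
        ⟨(0 : unitInterval).2.1, h0⟩⟩ : unitInterval) = 0 := by
      apply Subtype.ext; simp
    have a1 : (⟨2 * ((1 : unitInterval) : ℝ) - 1, unitInterval.two_mul_sub_one_mem_iff.2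
        ⟨(not_le.1 h1').le, (1 : unitInterval).2.2⟩⟩ : unitInterval) = 1 := by
      apply Subtype.ext; simp; norm_num
    rw [a0, a1]; ring

section
variable {X V : Type*} [PseudoMetricSpace X] {f : X → V → ℝ}
    (hf : ∀ v, Continuous fun x => f x v) (he : ∀ x, OnEdge (f x)) {C : ℝ} (hC0 : 0 ≤ C)
    (hC : ∀ x y, f x = f y → dist x y ≤ C) {p : X → ℝ × ℝ} {L : ℝ} (hL : 0 ≤ L)
    (hp : ∀ x y, dist (p x) (p y) ≤ L * dist x y) {ρ : ℝ} (hρ : 2 * L * C < ρ)
include hf he hC0 hC hL hp hρ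

/-- homotopic far paths have the same crossing number -/
theorem hasCross_homotopic {x y : X} {γ γ' : Path x y} (h : γ.Homotopic γ')
    (hfar : ∀ t, Far ρ (p (γ t))) (hfar' : ∀ t, Far ρ (p (γ' t))) {n n' : ℤ}
    (hn : HasCross p γ n) (hn' : HasCross p γ' n') : n = n' := by
  obtain ⟨F⟩ := h
  obtain ⟨δ, hδ, u, hu, rfl⟩ := hn
  obtain ⟨δ', hδ', u', hu', rfl⟩ := hn'
  obtain ⟨N0, hN0⟩ := square hf he hC0 hC hL hp hρ (H := fun s => F s) F.continuous
  obtain ⟨N1, hN1⟩ := exists_nat_gt (1 / min δ δ')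
  have hδm : 0 < min δ δ' := lt_min hδ hδ'
  set n := max N0 N1 with hn
  have hn0 : 0 < n := by
    have h3 : (0 : ℝ) < N1 := lt_trans (by positivity) hN1
    have h4 : 0 < N1 := by exact_mod_cast h3
    omega
  have hnR : (0 : ℝ) < n := by exact_mod_cast hn0
  have hn1 : 1 / (n : ℝ) < min δ δ' := by
    have h3 : (N1 : ℝ) ≤ n := by exact_mod_cast le_max_right _ _
    rw [div_lt_iff₀ hnR]
    rw [div_lt_iff₀ hδm] at hN1
    nlinarith
  obtain ⟨U, hU1, hU2⟩ := hN0 n (le_max_left _ _)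
  have F0 : ∀ t, F (0, t) = γ t := fun t => F.map_zero_left t
  have F1 : ∀ t, F (1, t) = γ' t := fun t => F.map_one_left t
  have x0 : Far ρ (p x) := by have := hfar 0; rwa [Path.source] at this
  have y0 : Far ρ (p y) := by have := hfar 1; rwa [Path.target] at this
  have a1 : ∀ j, U 0 j - U 0 0 = u (gp n j) - u (gp n 0) := by
    intro j
    induction j with
    | zero => ring
    | succ j ih =>
      have k1 := hU2 0 j
      simp only [gp_zero, F0] at k1
      have k2 := k1 (hfar _) (hfar _)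
      have k3 := hu (gp n j) (gp n (j + 1))
        (lt_of_le_of_lt (gp_dist hn0 j) (lt_of_lt_of_le hn1 (min_le_left _ _)))
      linarith
  have a2 : ∀ j, U n j - U n 0 = u' (gp n j) - u' (gp n 0) := by
    intro j
    induction j with
    | zero => ring
    | succ j ih =>
      have k1 := hU2 n j
      simp only [gp_self hn0, F1] at k1
      have k2 := k1 (hfar' _) (hfar' _)
      have k3 := hu' (gp n j) (gp n (j + 1))
        (lt_of_le_of_lt (gp_dist hn0 j) (lt_of_lt_of_le hn1 (min_le_right _ _)))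
      linarith
  have a3 : ∀ i, U i 0 = U 0 0 := by
    intro i
    induction i with
    | zero => rfl
    | succ i ih =>
      have k1 := hU1 i 0
      simp only [gp_zero, Path.Homotopy.source] at k1
      have k2 := k1 x0 x0
      rw [cr_self] at k2
      linarith
  have a4 : ∀ i, U i n = U 0 n := by
    intro i
    induction i with
    | zero => rfl
    | succ i ih =>
      have k1 := hU1 i n
      simp only [gp_self hn0, Path.Homotopy.target] at k1
      have k2 := k1 y0 y0
      rw [cr_self] at k2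
      linarith
  have b1 := a1 n
  have b2 := a2 n
  rw [gp_zero, gp_self hn0] at b1 b2
  have b3 := a3 n
  have b4 := a4 n
  linarith

/-- **Global potential** for the crossing cocycle on a simply connected geodesic space. -/
theorem exists_pot [SimplyConnectedSpace X]
    (hgeo : ∀ x y : X, ∃ c : Path x y, ∀ s t, dist (c s) (c t) = |(s : ℝ) - t| * dist x y) :
    ∃ θ : X → ℤ, ∀ z z', Far (ρ + L * C) (p z) → Far (ρ + L * C) (p z') → dist z z' < C →
      θ z' - θ z = cr (p z) (p z') := by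
  classical
  have hρ0 : 0 < ρ := lt_of_le_of_lt (by positivity) hρ
  have hpc : Continuous p := by
    have : LipschitzWith ⟨L, hL⟩ p := LipschitzWith.of_dist_le_mul hp
    exact this.continuous
  let Y : Set X := {z | Far ρ (p z)}
  have hYC : ∀ z, Far (ρ + L * C) (p z) → z ∈ Y := by
    intro z hz
    exact hz.mono (by nlinarith [mul_nonneg hL hC0])
  let S : Setoid Y :=
    { r := fun a b => JoinedIn Y a.1 b.1
      iseqv := ⟨fun a => JoinedIn.refl a.2, fun h => h.symm, fun h h' => h.trans h'⟩ }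
  let rp : Y → Y := fun a => (Quotient.mk S a).out
  have hrp : ∀ a : Y, JoinedIn Y (rp a).1 a.1 := fun a => Quotient.exact (s := S) (Quotient.out_eq _)
  have hrp2 : ∀ a b : Y, JoinedIn Y a.1 b.1 → rp a = rp b := by
    intro a b h
    have : Quotient.mk S a = Quotient.mk S b := Quotient.sound h
    simp only [rp, this]
  have hex : ∀ a : Y, ∃ n, ∃ γ : Path (rp a).1 a.1, (∀ t, γ t ∈ Y) ∧ HasCross p γ n := by
    intro a
    obtain ⟨n, hn⟩ := hasCross_exists hpc (hrp a).somePath.continuous hρ0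
      (fun t => (hrp a).somePath_mem t)
    exact ⟨n, (hrp a).somePath, fun t => (hrp a).somePath_mem t, hn⟩
  choose N γ hγ hN using hex
  refine ⟨fun z => if h : z ∈ Y then N ⟨z, h⟩ else 0, fun z z' hz hz' hzz => ?_⟩
  have hzY := hYC z hz
  have hzY' := hYC z' hz'
  simp only [dif_pos hzY, dif_pos hzY']
  obtain ⟨c, hc⟩ := hgeo z z'
  have hcC : ∀ s t, dist (c s) (c t) ≤ dist z z' := by
    intro s t
    rw [hc]
    have : |(s : ℝ) - t| ≤ 1 := by
      rw [abs_le]; constructor <;> linarith [s.2.1, s.2.2, t.2.1, t.2.2]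
    nlinarith [dist_nonneg (x := z) (y := z')]
  have hcY : ∀ t, Far ρ (p (c t)) := by
    intro t
    have h1 : dist (p z) (p (c t)) ≤ L * C := by
      refine (hp _ _).trans (mul_le_mul_of_nonneg_left ?_ hL)
      have := hcC 0 t
      rw [Path.source] at this
      linarith
    have := Far.of_dist hz h1
    rwa [add_sub_cancel_right] at this
  have hcs : HasCross p c (cr (p z) (p z')) := by
    have := hasCross_short hcY (fun s t => by
      refine lt_of_le_of_lt (hp _ _) (lt_of_le_of_lt (mul_le_mul_of_nonneg_left (hcC s t) hL) ?_)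
      have := mul_le_mul_of_nonneg_left hzz.le hL
      nlinarith [mul_nonneg hL hC0])
    rwa [Path.source, Path.target] at this
  have hj : JoinedIn Y z z' := ⟨c, hcY⟩
  have hrr := hrp2 ⟨z, hzY⟩ ⟨z', hzY'⟩ hj
  -- compare
  have gen : ∀ (a b : Y) (hab : a = b) (w w' : X) (g : Path b.1 w') (g1 : Path a.1 w)
      (cc : Path w w') (n1 n2 n3 : ℤ), (∀ t, g t ∈ Y) → (∀ t, g1 t ∈ Y) → (∀ t, cc t ∈ Y) →
      HasCross p g n2 → HasCross p g1 n1 → HasCross p cc n3 → n2 = n1 + n3 := by
    rintro a b rfl w w' g g1 cc n1 n2 n3 hg hg1 hcc h2 h1 h3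
    have ht := hasCross_trans hpc hρ0 hg1 hcc h1 h3
    refine hasCross_homotopic hf he hC0 hC hL hp hρ
      (SimplyConnectedSpace.paths_homotopic g (g1.trans cc)) hg ?_ h2 ht
    intro t
    rw [Path.trans_apply]
    split_ifs
    · exact hg1 _
    · exact hcc _
  have := gen _ _ hrr z z' (γ ⟨z', hzY'⟩) (γ ⟨z, hzY⟩) c _ _ _ (hγ _) (hγ _) hcY (hN _) (hN _) hcs
  linarith

end

end UW727
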