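import Pool.Agent.Work.MP_727c87_gt_helper49.Cross

/-!
The square lemma: the crossing number around a continuous square vanishes.
-/

namespace UW727

open Set Filter Topology

theorem OnEdge.add_le {V : Type*} {y : V → ℝ} (h : OnEdge y) {v w : V} (hvw : v ≠ w) :
    y v + y w ≤ 1 := by
  by_cases hv : 0 < y v
  · rcases h.other v hv with ⟨h1, h2⟩ | ⟨u, hu, h1, h2⟩
    · rw [h2 w hvw.symm]; linarith
    · by_cases hw : w = u
      · subst hw; linarith
      · rw [h2 w hvw.symm hw]; linarith [h.le_one v]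
  · linarith [h.le_one w]

theorem OnEdge.add3_le {V : Type*} {y : V → ℝ} (h : OnEdge y) {v a b : V} (hva : v ≠ a)
    (hvb : v ≠ b) (hab : a ≠ b) : y v + y a + y b ≤ 1 := by
  by_cases hv : 0 < y v
  · rcases h.other v hv with ⟨h1, h2⟩ | ⟨u, hu, h1, h2⟩
    · rw [h2 a hva.symm, h2 b hvb.symm]; linarith
    · by_cases ha : a = u
      · subst ha
        rw [h2 b hvb.symm hab.symm]; linarith
      · rw [h2 a hva.symm ha]; linarith [h.add_le hvb]
  · linarith [h.add_le hab]

/-- barycentric coordinates vary uniformly (in the vertex) near a point -/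
theorem equi {Z V : Type*} [TopologicalSpace Z] {φ : Z → V → ℝ}
    (hφ : ∀ v, Continuous fun z => φ z v) (he : ∀ z, OnEdge (φ z)) (z0 : Z) {ε : ℝ} (hε : 0 < ε) :
    ∀ᶠ z in 𝓝 z0, ∀ v, |φ z v - φ z0 v| ≤ ε := by
  obtain ⟨h0, a, b, h1, h2⟩ := he z0
  have key : ∀ c : V, ∀ᶠ z in 𝓝 z0, |φ z c - φ z0 c| < ε / 2 := by
    intro c
    have := Metric.tendsto_nhds.1 ((hφ c).tendsto z0) (ε / 2) (by positivity)
    simpa [Real.dist_eq] using this
  filter_upwards [key a, key b] with z ha hb v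
  by_cases hva : v = a
  · subst hva; linarith
  by_cases hvb : v = b
  · subst hvb; linarith
  rw [h1 v hva hvb, sub_zero, abs_of_nonneg ((he z).1 v)]
  rw [abs_lt] at ha hb
  rcases h2 with ⟨hab, h2⟩ | ⟨hab, h2⟩
  · have := (he z).add_le hva
    linarith [ha.1]
  · have := (he z).add3_le hva hvb hab
    linarith [ha.1, hb.1]

theorem equi_unif {Z V : Type*} [PseudoMetricSpace Z] [CompactSpace Z] {φ : Z → V → ℝ}
    (hφ : ∀ v, Continuous fun z => φ z v) (he : ∀ z, OnEdge (φ z)) {ε : ℝ} (hε : 0 < ε) :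
    ∃ δ > 0, ∀ z z', dist z z' < δ → ∀ v, |φ z v - φ z' v| ≤ ε := by
  obtain ⟨δ, hδ, h⟩ := lebesgue_number_lemma_of_metric (isCompact_univ (X := Z))
    (c := fun z0 : Z => interior {z | ∀ v, |φ z v - φ z0 v| ≤ ε / 2})
    (fun _ => isOpen_interior)
    (fun z _ => mem_iUnion.2 ⟨z, mem_interior_iff_mem_nhds.2 (equi hφ he z (by positivity))⟩)
  refine ⟨δ, hδ, fun z z' hzz v => ?_⟩
  obtain ⟨z0, hz0⟩ := h z (mem_univ z)
  have h1 := interior_subset (hz0 (Metric.mem_ball_self hδ)) v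
  have h2 := interior_subset (hz0 (show z' ∈ Metric.ball z δ by rwa [Metric.mem_ball, dist_comm])) v
  have h3 : φ z v - φ z' v = (φ z v - φ z0 v) - (φ z' v - φ z0 v) := by ring
  rw [h3]
  calc _ ≤ |φ z v - φ z0 v| + |φ z' v - φ z0 v| := abs_sub _ _
    _ ≤ ε := by linarith

/-- compactness: nearly equal images have nearly `C`-close preimages -/
theorem fib_close {Z X V : Type*} [PseudoMetricSpace Z] [CompactSpace Z] [PseudoMetricSpace X]
    {φ : Z → V → ℝ} (hφ : ∀ v, Continuous fun z => φ z v) {g : Z → X} (hg : Continuous g)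
    {C : ℝ} (hC : ∀ z z', φ z = φ z' → dist (g z) (g z') ≤ C) {ε : ℝ} (hε : 0 < ε) :
    ∃ η > 0, ∀ z z', (∀ v, |φ z v - φ z' v| ≤ η) → dist (g z) (g z') < C + ε := by
  by_contra hcon
  push Not at hcon
  choose z z' h1 h2 using fun n : ℕ => hcon (1 / ((n : ℝ) + 1)) (by positivity)
  obtain ⟨⟨a, b⟩, θ, hθ, hlim⟩ := CompactSpace.tendsto_subseq (fun n => (z n, z' n))
  have ha : Tendsto (fun n => z (θ n)) atTop (𝓝 a) :=
    (continuous_fst.tendsto (a, b)).comp hlim
  have hb : Tendsto (fun n => z' (θ n)) atTop (𝓝 b) :=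
    (continuous_snd.tendsto (a, b)).comp hlim
  have hab : φ a = φ b := by
    funext v
    have h3 : Tendsto (fun n => |φ (z (θ n)) v - φ (z' (θ n)) v|) atTop (𝓝 |φ a v - φ b v|) :=
      ((((hφ v).tendsto a).comp ha).sub (((hφ v).tendsto b).comp hb)).abs
    have h4 : Tendsto (fun n : ℕ => 1 / ((θ n : ℝ) + 1)) atTop (𝓝 0) :=
      tendsto_one_div_add_atTop_nhds_zero_nat.comp hθ.tendsto_atTop
    have h5 : |φ a v - φ b v| ≤ 0 := le_of_tendsto_of_tendsto' h3 h4 (fun n => h1 (θ n) v)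
    have h6 : |φ a v - φ b v| = 0 := le_antisymm h5 (abs_nonneg _)
    exact sub_eq_zero.1 (abs_eq_zero.1 h6)
  have h7 : Tendsto (fun n => dist (g (z (θ n))) (g (z' (θ n)))) atTop (𝓝 (dist (g a) (g b))) :=
    ((hg.tendsto a).comp ha).dist ((hg.tendsto b).comp hb)
  have h8 : C + ε ≤ dist (g a) (g b) := ge_of_tendsto' h7 (fun n => h2 (θ n))
  linarith [hC a b hab]

/-- grid points of the unit interval -/
noncomputable def gp (n i : ℕ) : unitInterval :=
  ⟨min ((i : ℝ) / n) 1, le_min (by positivity) zero_le_one, min_le_right _ _⟩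

theorem gp_dist {n : ℕ} (hn : 0 < n) (i : ℕ) : dist (gp n i) (gp n (i + 1)) ≤ 1 / n := by
  rw [Subtype.dist_eq, Real.dist_eq]
  unfold gp
  simp only
  have h1 : |min ((i : ℝ) / n) 1 - min (((i + 1 : ℕ) : ℝ) / n) 1| ≤
      |(i : ℝ) / n - ((i + 1 : ℕ) : ℝ) / n| := by
    have := abs_min_sub_min_le_max ((i : ℝ) / n) 1 (((i + 1 : ℕ) : ℝ) / n) 1
    simpa using this
  refine h1.trans (le_of_eq ?_)
  have hn' : (n : ℝ) ≠ 0 := by exact_mod_cast hn.ne'
  push_cast
  rw [← sub_div, abs_div]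
  simp

theorem gp_zero (n : ℕ) : gp n 0 = 0 := by
  apply Subtype.ext
  simp [gp]

theorem gp_self {n : ℕ} (hn : 0 < n) : gp n n = 1 := by
  apply Subtype.ext
  have hn' : (n : ℝ) ≠ 0 := by exact_mod_cast hn.ne'
  simp [gp, hn']

/-- abstract discrete Stokes: a cocycle on the triangulated grid has a potential -/
theorem grid_potential (e : ℕ × ℕ → ℕ × ℕ → ℤ)
    (h1 : ∀ i j, e (i, j) (i + 1, j) + e (i + 1, j) (i + 1, j + 1) = e (i, j) (i + 1, j + 1))
    (h2 : ∀ i j, e (i, j) (i, j + 1) + e (i, j + 1) (i + 1, j + 1) = e (i, j) (i + 1, j + 1)) :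
    ∃ E : ℕ → ℕ → ℤ, (∀ i j, E (i + 1) j - E i j = e (i, j) (i + 1, j)) ∧
      (∀ i j, E i (j + 1) - E i j = e (i, j) (i, j + 1)) := by
  refine ⟨fun i j => (∑ i' ∈ Finset.range i, e (i', 0) (i' + 1, 0)) +
    ∑ j' ∈ Finset.range j, e (i, j') (i, j' + 1), ?_, ?_⟩
  · intro i j
    induction j with
    | zero => simp [Finset.sum_range_succ]
    | succ j ih =>
      simp only [Finset.sum_range_succ] at ih ⊢
      have a1 := h1 i j
      have a2 := h2 i j
      linarith
  · intro i j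
    simp only [Finset.sum_range_succ]
    ring

/-- **Square lemma.** -/
theorem square {X V : Type*} [PseudoMetricSpace X] {f : X → V → ℝ}
    (hf : ∀ v, Continuous fun x => f x v) (he : ∀ x, OnEdge (f x)) {C : ℝ} (hC0 : 0 ≤ C)
    (hC : ∀ x y, f x = f y → dist x y ≤ C) {p : X → ℝ × ℝ} {L : ℝ} (hL : 0 ≤ L)
    (hp : ∀ x y, dist (p x) (p y) ≤ L * dist x y) {ρ : ℝ} (hρ : 2 * L * C < ρ)
    {H : unitInterval × unitInterval → X} (hH : Continuous H) :
    ∃ N0 : ℕ, ∀ n, N0 ≤ n → ∃ U : ℕ → ℕ → ℤ,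
      (∀ i j, Far ρ (p (H (gp n i, gp n j))) → Far ρ (p (H (gp n (i + 1), gp n j))) →
        U (i + 1) j - U i j = cr (p (H (gp n i, gp n j))) (p (H (gp n (i + 1), gp n j)))) ∧
      (∀ i j, Far ρ (p (H (gp n i, gp n j))) → Far ρ (p (H (gp n i, gp n (j + 1)))) →
        U i (j + 1) - U i j = cr (p (H (gp n i, gp n j))) (p (H (gp n i, gp n (j + 1))))) := by
  classical
  -- constants
  obtain ⟨ε, hε, hε1⟩ : ∃ ε > 0, L * (2 * C + 3 * ε) < ρ := by
    refine ⟨(ρ - 2 * L * C) / (3 * L + 1) / 2, by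
      have : 0 < ρ - 2 * L * C := by linarith
      positivity, ?_⟩
    have h3 : 0 < 3 * L + 1 := by positivity
    have h4 : 0 < ρ - 2 * L * C := by linarith
    have h5 : L * (2 * C + 3 * ((ρ - 2 * L * C) / (3 * L + 1) / 2)) =
        2 * L * C + (ρ - 2 * L * C) * (3 * L / (3 * L + 1)) / 2 := by
      field_simp
    rw [h5]
    have h6 : 3 * L / (3 * L + 1) < 1 := by rw [div_lt_one h3]; linarith
    nlinarith
  have hφ : ∀ v, Continuous fun s : unitInterval × unitInterval => f (H s) v :=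
    fun v => (hf v).comp hH
  obtain ⟨η, hη, hη1⟩ := fib_close (φ := fun s => f (H s)) hφ hH
    (fun s s' h => hC _ _ h) hε
  obtain ⟨m, hm⟩ := exists_nat_gt (1 / η)
  have hm0 : 0 < m := by
    have : (0 : ℝ) < m := lt_trans (by positivity) hm
    exact_mod_cast this
  have hm1 : 1 / (m : ℝ) ≤ η := by
    rw [div_le_iff₀ (by exact_mod_cast hm0)]
    rw [div_lt_iff₀ hη] at hm
    linarith
  obtain ⟨δ1, hδ1, h1⟩ := equi_unif (φ := fun s => f (H s)) hφ (fun s => he _)
    (ε := 1 / (8 * m)) (by positivity)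
  obtain ⟨δ2, hδ2, h2⟩ := Metric.uniformContinuous_iff.1
    (CompactSpace.uniformContinuous_of_continuous hH) ε hε
  obtain ⟨N0, hN0⟩ := exists_nat_gt (1 / min δ1 δ2)
  refine ⟨N0, fun n hn => ?_⟩
  have hδ : 0 < min δ1 δ2 := lt_min hδ1 hδ2
  have hn0 : 0 < n := by
    have h3 : (0 : ℝ) < N0 := lt_trans (by positivity) hN0
    have h4 : 0 < N0 := by exact_mod_cast h3
    omega
  have hn1 : 1 / (n : ℝ) < min δ1 δ2 := by
    have h3 : (N0 : ℝ) ≤ n := by exact_mod_cast hn
    rw [div_lt_iff₀ (by exact_mod_cast hn0)]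
    rw [div_lt_iff₀ hδ] at hN0
    nlinarith
  set P : ℕ × ℕ → X := fun s => H (gp n s.1, gp n s.2) with hP
  -- adjacency relation
  have hadj : ∀ s s' : unitInterval × unitInterval, dist s s' ≤ 1 / n →
      (∀ v, |f (H s) v - f (H s') v| ≤ 1 / (8 * m)) ∧ dist (H s) (H s') < ε := by
    intro s s' h
    exact ⟨h1 s s' (lt_of_le_of_lt h (lt_of_lt_of_le hn1 (min_le_left _ _))),
      h2 (lt_of_le_of_lt h (lt_of_lt_of_le hn1 (min_le_right _ _)))⟩
  -- representatives
  let good : (V → ℤ) → Prop := fun a => ∃ s, lab m (f (H s)) = a ∧ Far ρ (p (H s))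
  let rep : (V → ℤ) → unitInterval × unitInterval := fun a =>
    if h : good a then h.choose else (0, 0)
  have hrep : ∀ a, good a → lab m (f (H (rep a))) = a ∧ Far ρ (p (H (rep a))) := by
    intro a ha
    simp only [rep, dif_pos ha]
    exact ha.choose_spec
  let dl : (V → ℤ) → (V → ℤ) → ℤ := fun a b =>
    if good a ∧ good b then cr (p (H (rep a))) (p (H (rep b))) else 0
  have dl_self : ∀ a, dl a a = 0 := by
    intro a; simp only [dl]; split_ifs
    · exact cr_self _
    · rfl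
  have dl_symm : ∀ a b, dl b a = - dl a b := by
    intro a b
    simp only [dl]
    by_cases h : good a ∧ good b
    · rw [if_pos h, if_pos h.symm, cr_symm]
    · rw [if_neg h, if_neg (fun h' => h h'.symm)]; simp
  -- same label: close
  have hlab : ∀ s s', lab m (f (H s)) = lab m (f (H s')) → dist (H s) (H s') < C + ε := by
    intro s s' h
    exact hη1 s s' (fun v => (lab_close hm0 h v).trans hm1)
  have hfar : ∀ s s', Far ρ (p (H s)) → Far ρ (p (H s')) → dist (H s) (H s') < ε →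
      cr (p (H s)) (p (H s')) = dl (lab m (f (H s))) (lab m (f (H s'))) +
        cr (p (H (rep (lab m (f (H s')))))) (p (H s')) -
        cr (p (H (rep (lab m (f (H s)))))) (p (H s)) := by
    intro s s' hs hs' hss
    have ga : good (lab m (f (H s))) := ⟨s, rfl, hs⟩
    have gb : good (lab m (f (H s'))) := ⟨s', rfl, hs'⟩
    obtain ⟨ra1, ra2⟩ := hrep _ ga
    obtain ⟨rb1, rb2⟩ := hrep _ gb
    have hdl : dl (lab m (f (H s))) (lab m (f (H s'))) =
        cr (p (H (rep (lab m (f (H s)))))) (p (H (rep (lab m (f (H s')))))) := by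
      simp only [dl]; rw [if_pos ⟨ga, gb⟩]
    rw [hdl]
    set a := H (rep (lab m (f (H s)))) with ha
    set b := H (rep (lab m (f (H s')))) with hb
    have d1 : dist a (H s) < C + ε := hlab _ _ ra1
    have d2 : dist b (H s') < C + ε := hlab _ _ rb1
    have hlt : ∀ x y : X, dist x y < 2 * C + 3 * ε → dist (p x) (p y) < ρ := by
      intro x y hxy
      have := mul_le_mul_of_nonneg_left hxy.le hL
      linarith [hp x y]
    have e1 : cr (p a) (p (H s)) + cr (p (H s)) (p (H s')) = cr (p a) (p (H s')) :=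
      cr_add ra2 hs hs' (hlt _ _ (by linarith)) (hlt _ _ (by linarith))
        (hlt _ _ (by linarith [dist_triangle a (H s) (H s')]))
    have e2 : cr (p a) (p b) + cr (p b) (p (H s')) = cr (p a) (p (H s')) :=
      cr_add ra2 rb2 hs' (hlt _ _ (by
          have t1 := dist_triangle a (H s) b
          have t2 := dist_triangle (H s) (H s') b
          rw [dist_comm (H s') b] at t2
          linarith)) (hlt _ _ (by linarith))
        (hlt _ _ (by linarith [dist_triangle a (H s) (H s')]))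
    linarith
  -- the cocycle on the grid
  let e : ℕ × ℕ → ℕ × ℕ → ℤ := fun s s' => dl (lab m (f (P s))) (lab m (f (P s')))
  have htri : ∀ s s' s'' : ℕ × ℕ,
      dist (gp n s.1, gp n s.2) (gp n s'.1, gp n s'.2) ≤ 1 / n →
      dist (gp n s'.1, gp n s'.2) (gp n s''.1, gp n s''.2) ≤ 1 / n →
      dist (gp n s.1, gp n s.2) (gp n s''.1, gp n s''.2) ≤ 1 / n →
      e s s' + e s' s'' = e s s'' := by
    intro s s' s'' d1 d2 d3
    have k1 := (hadj _ _ d1).1
    have k2 := (hadj _ _ d2).1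
    have k3 := (hadj _ _ d3).1
    have := lab_two hm0 (y := ![f (P s), f (P s'), f (P s'')]) (by
      intro i; fin_cases i <;> exact he _) (by
      intro i j v
      have sy : ∀ x y : ℝ, |x - y| ≤ 1 / (8 * m) → |y - x| ≤ 1 / (8 * m) := by
        intro x y h; rwa [abs_sub_comm]
      have z0 : ∀ x : ℝ, |x - x| ≤ 1 / (8 * m) := by
        intro x; rw [sub_self, abs_zero]; positivity
      fin_cases i <;> fin_cases j
      · exact z0 _
      · exact k1 v
      · exact k3 v
      · exact sy _ _ (k1 v)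
      · exact z0 _
      · exact k2 v
      · exact sy _ _ (k3 v)
      · exact sy _ _ (k2 v)
      · exact z0 _)
    simp only [Matrix.cons_val_zero, Matrix.cons_val_one, Matrix.cons_val] at this
    simp only [e]
    rcases this with h | h | h
    · rw [h, dl_self]; ring
    · rw [h, dl_self]; ring
    · rw [h, dl_self, dl_symm]; ring
  have hd : ∀ a b c d : ℕ, dist (gp n a) (gp n c) ≤ 1 / n → dist (gp n b) (gp n d) ≤ 1 / n →
      dist (gp n a, gp n b) (gp n c, gp n d) ≤ 1 / n := by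
    intro a b c d h h'
    rw [Prod.dist_eq]; exact max_le h h'
  have hz : ∀ a : ℕ, dist (gp n a) (gp n a) ≤ 1 / n := by
    intro a; rw [dist_self]; positivity
  obtain ⟨E, hE1, hE2⟩ := grid_potential e
    (fun i j => htri _ _ _ (hd _ _ _ _ (gp_dist hn0 i) (hz _)) (hd _ _ _ _ (hz _) (gp_dist hn0 j))
      (hd _ _ _ _ (gp_dist hn0 i) (gp_dist hn0 j)))
    (fun i j => htri _ _ _ (hd _ _ _ _ (hz _) (gp_dist hn0 j)) (hd _ _ _ _ (gp_dist hn0 i) (hz _))
      (hd _ _ _ _ (gp_dist hn0 i) (gp_dist hn0 j)))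
  refine ⟨fun i j => E i j + cr (p (H (rep (lab m (f (P (i, j))))))) (p (P (i, j))), ?_, ?_⟩
  · intro i j a1 a2
    have k1 := hfar (gp n i, gp n j) (gp n (i + 1), gp n j) a1 a2
      (hadj _ _ (hd _ _ _ _ (gp_dist hn0 i) (hz _))).2
    have k2 := hE1 i j
    simp only [e, P] at k2 ⊢
    rw [k1]
    linarith
  · intro i j a1 a2
    have k1 := hfar (gp n i, gp n j) (gp n i, gp n (j + 1)) a1 a2
      (hadj _ _ (hd _ _ _ _ (hz _) (gp_dist hn0 j))).2
    have k2 := hE2 i j
    simp only [e, P] at k2 ⊢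
    rw [k1]
    linarith

end UW727
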